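import Pool.Agent.H937R3.EllOne

/-!
# The group algebra `ℓ¹(G)` as a normed algebra
-/

open Filter Topology H937R3

namespace Pool.Agent.J4H52.IQ

/-- The group algebra `ℓ¹(G)`. -/
def Al (G : Type*) : Type _ := L1 G

namespace Al

variable {G : Type*}

/-- The underlying Banach space. -/
@[reducible] noncomputable def preG (G : Type*) : NormedAddCommGroup (Al G) :=
  lp.normedAddCommGroup (E := fun _ : G => ℂ) (p := 1)

variable [DecidableEq G] [Group G]

noncomputable instance instNormedRing : NormedRing (Al G) :=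
  { preG G with
    mul := fun f g => L1.convL f g
    one := L1.delta 1
    left_distrib := fun f g h => L1.conv_add f g h
    right_distrib := fun f g h => L1.add_conv f g h
    zero_mul := fun f => L1.zero_conv f
    mul_zero := fun f => L1.conv_zero f
    mul_assoc := fun f g h => L1.conv_assoc f g h
    one_mul := fun f => L1.one_conv f
    mul_one := fun f => L1.conv_one f
    norm_mul_le := fun f g => L1.norm_conv_le f g }

/-- The module structure. -/
@[reducible] noncomputable def preM : Module ℂ (Al G) :=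
  (NormedSpace.toModule : Module ℂ (L1 G))

/-- The algebra structure. -/
@[reducible] noncomputable def preA : Algebra ℂ (Al G) :=
  letI : Module ℂ (Al G) := preM
  Algebra.ofModule (fun c f g => L1.smul_conv c f g) (fun c f g => L1.conv_smul c f g)

noncomputable instance instNormedAlgebra : NormedAlgebra ℂ (Al G) :=
  { preA with
    norm_smul_le := fun c f => norm_smul_le (α := ℂ) (β := L1 G) c f }

instance instCS : CompleteSpace (Al G) :=
  inferInstanceAs (CompleteSpace (lp (fun _ : G => ℂ) 1))

/-- The point mass at `x`. -/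
noncomputable def delta (x : G) : Al G := L1.delta x

lemma one_def : (1 : Al G) = delta 1 := rfl

@[simp] lemma norm_delta (x : G) : ‖(delta x : Al G)‖ = 1 := L1.norm_delta x

instance instNOC : NormOneClass (Al G) := ⟨norm_delta 1⟩

@[simp] lemma delta_mul_delta (x y : G) : (delta x * delta y : Al G) = delta (x * y) :=
  L1.convL_delta_delta x y

/-- The value of `f ∈ ℓ¹(G)` at `x`. -/
def coeff (f : Al G) (x : G) : ℂ := (show L1 G from f) x

lemma hasSum_delta (f : Al G) : HasSum (fun x => coeff f x • delta x) f := by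
  have h : HasSum (fun i : G => (lp.single 1 i ((show L1 G from f) i) : L1 G)) (show L1 G from f) :=
    lp.hasSum_single (E := fun _ : G => ℂ) (p := 1) (by simp) (show L1 G from f)
  have h0 : (fun k => coeff f k • delta k)
      = fun k => ((lp.single 1 k ((show L1 G from f) k) : L1 G) : Al G) := by
    funext k
    have h1 : (lp.single 1 k ((show L1 G from f) k) : L1 G)
        = ((show L1 G from f) k) • (lp.single 1 k (1 : ℂ) : L1 G) := by
      rw [← lp.single_smul]
      simp
    rw [h1]
    rfl
  rw [h0]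
  exact h

lemma mem_of_delta (S : Submodule ℂ (Al G)) (hS : IsClosed (S : Set (Al G)))
    (h : ∀ x, delta x ∈ S) (f : Al G) : f ∈ S :=
  hS.mem_of_tendsto (hasSum_delta f)
    (Eventually.of_forall fun _ => S.sum_mem fun x _ => S.smul_mem _ (h x))

lemma clm_ext {E : Type*} [NormedAddCommGroup E] [NormedSpace ℂ E]
    {S T : Al G →L[ℂ] E} (h : ∀ x, S (delta x) = T (delta x)) : S = T := by
  ext f
  have h1 := (hasSum_delta f).mapL S
  have h2 := (hasSum_delta f).mapL T
  have h3 : (fun x => S (coeff f x • delta x)) = fun x => T (coeff f x • delta x) := by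
    funext x
    rw [map_smul, map_smul, h]
  rw [h3] at h1
  exact h1.unique h2

section lift

variable {E : Type*} [NormedAddCommGroup E] [NormedSpace ℂ E] [CompleteSpace E]

/-- The continuous linear map `f ↦ ∑ₓ f(x) v(x)` given by a bounded family `v`. -/
noncomputable def lift (v : G → E) (C : ℝ) (hv : ∀ x, ‖v x‖ ≤ C) : Al G →L[ℂ] E :=
  LinearMap.mkContinuous
    { toFun := fun f => L1.lift v C hv (show L1 G from f)
      map_add' := fun f g => (L1.lift v C hv).map_add (show L1 G from f) (show L1 G from g)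
      map_smul' := fun c f => (L1.lift v C hv).map_smul c (show L1 G from f) } C
    (fun f => L1.lift_bound v C hv (show L1 G from f))

@[simp] lemma lift_delta (v : G → E) (C : ℝ) (hv : ∀ x, ‖v x‖ ≤ C) (x : G) :
    lift v C hv (delta x) = v x := L1.lift_delta v C hv x

lemma norm_lift_le (v : G → E) (C : ℝ) (hv : ∀ x, ‖v x‖ ≤ C) (f : Al G) :
    ‖lift v C hv f‖ ≤ C * ‖f‖ := L1.lift_bound v C hv (show L1 G from f)

end lift

lemma bil_ext {E : Type*} [NormedAddCommGroup E] [NormedSpace ℂ E]
    {B B' : Al G →L[ℂ] Al G →L[ℂ] E}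
    (h : ∀ x y, B (delta x) (delta y) = B' (delta x) (delta y)) : B = B' :=
  clm_ext fun x => clm_ext fun y => h x y

/-- The bilinear map `(f, g) ↦ T (P f * Q g)`. -/
noncomputable def bl (T P Q : Al G →L[ℂ] Al G) : Al G →L[ℂ] Al G →L[ℂ] Al G :=
  (ContinuousLinearMap.compL ℂ (Al G) (Al G) (Al G) T).comp
    ((ContinuousLinearMap.mul ℂ (Al G)).bilinearComp P Q)

lemma bl_apply (T P Q : Al G →L[ℂ] Al G) (f g : Al G) : bl T P Q f g = T (P f * Q g) := rfl

lemma bil_eq {ι ι' : Type*} (s : Finset ι) (s' : Finset ι')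
    (T P Q : ι → Al G →L[ℂ] Al G) (T' P' Q' : ι' → Al G →L[ℂ] Al G)
    (h : ∀ x y : G, ∑ i ∈ s, T i (P i (delta x) * Q i (delta y))
      = ∑ i ∈ s', T' i (P' i (delta x) * Q' i (delta y))) (f g : Al G) :
    ∑ i ∈ s, T i (P i f * Q i g) = ∑ i ∈ s', T' i (P' i f * Q' i g) := by
  have h1 : (∑ i ∈ s, bl (T i) (P i) (Q i)) = ∑ i ∈ s', bl (T' i) (P' i) (Q' i) := by
    refine bil_ext ?_
    intro x y
    simp only [_root_.sum_apply, bl_apply]
    exact h x y
  have h2 := congrArg (fun B : Al G →L[ℂ] Al G →L[ℂ] Al G => B f g) h1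
  simp only [_root_.sum_apply, bl_apply] at h2
  exact h2

end Al

end Pool.Agent.J4H52.IQ
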