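import Pool.Agent.J4H52.IQ.Sys

/-!
# Assembly: a closed ideal with a left and a right system is idempotent
-/

open Filter Topology

namespace Pool.Agent.J4H52.IQ

section Asm

/-- Successive approximation by a sum of two closed subspaces. -/
theorem two_sum {X : Type*} [NormedAddCommGroup X] [NormedSpace ℂ X] [CompleteSpace X]
    (I J1 J2 : Submodule ℂ X) (h1 : IsClosed (J1 : Set X)) (h2 : IsClosed (J2 : Set X))
    (hJ1 : J1 ≤ I) (hJ2 : J2 ≤ I) (K : ℝ)
    (h : ∀ f ∈ I, ∃ a ∈ J1, ∃ b ∈ J2, ‖a‖ ≤ K * ‖f‖ ∧ ‖b‖ ≤ K * ‖f‖ ∧ ‖f - a - b‖ ≤ ‖f‖ / 2)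
    (f : X) (hf : f ∈ I) : ∃ a ∈ J1, ∃ b ∈ J2, f = a + b := by
  choose! α hα β hβ hKa hKb hr using h
  let R : ℕ → X := fun n => Nat.rec f (fun _ r => r - α r - β r) n
  have hR : ∀ n, R (n + 1) = R n - α (R n) - β (R n) := fun n => rfl
  have hRI : ∀ n, R n ∈ I := by
    intro n
    induction n with
    | zero => exact hf
    | succ n ih =>
      rw [hR]
      exact I.sub_mem (I.sub_mem ih (hJ1 (hα _ ih))) (hJ2 (hβ _ ih))
  have hRn : ∀ n, ‖R n‖ ≤ ‖f‖ * (1 / 2) ^ n := by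
    intro n
    induction n with
    | zero => simp [R]
    | succ n ih =>
      rw [hR]
      refine (hr _ (hRI n)).trans ?_
      rw [pow_succ]
      linarith
  have hK : ∀ x ∈ I, ‖x‖ ≠ 0 → 0 ≤ K := by
    intro x hx hx0
    by_contra hneg
    push Not at hneg
    have h3 := (norm_nonneg _).trans (hKa x hx)
    have h4 : 0 < ‖x‖ := lt_of_le_of_ne (norm_nonneg _) (Ne.symm hx0)
    nlinarith
  set K' : ℝ := |K| with hK'
  have hKa' : ∀ x ∈ I, ‖α x‖ ≤ K' * ‖x‖ := fun x hx =>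
    (hKa x hx).trans (by gcongr; exact le_abs_self K)
  have hKb' : ∀ x ∈ I, ‖β x‖ ≤ K' * ‖x‖ := fun x hx =>
    (hKb x hx).trans (by gcongr; exact le_abs_self K)
  have hsum : Summable (fun n : ℕ => K' * (‖f‖ * (1 / 2 : ℝ) ^ n)) :=
    (summable_geometric_two.mul_left ‖f‖).mul_left K'
  have hsa : Summable (fun n => α (R n)) := by
    refine Summable.of_norm_bounded hsum ?_
    intro n
    exact (hKa' _ (hRI n)).trans (by gcongr; exact hRn n)
  have hsb : Summable (fun n => β (R n)) := by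
    refine Summable.of_norm_bounded hsum ?_
    intro n
    exact (hKb' _ (hRI n)).trans (by gcongr; exact hRn n)
  refine ⟨∑' n, α (R n), ?_, ∑' n, β (R n), ?_, ?_⟩
  · refine h1.mem_of_tendsto hsa.hasSum.tendsto_sum_nat (Eventually.of_forall fun n => ?_)
    exact J1.sum_mem fun i _ => hα _ (hRI i)
  · refine h2.mem_of_tendsto hsb.hasSum.tendsto_sum_nat (Eventually.of_forall fun n => ?_)
    exact J2.sum_mem fun i _ => hβ _ (hRI i)
  · have h3 : ∀ n, ∑ i ∈ Finset.range n, α (R i) + ∑ i ∈ Finset.range n, β (R i) = f - R n := by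
      intro n
      induction n with
      | zero => simp [R]
      | succ n ih =>
        rw [Finset.sum_range_succ, Finset.sum_range_succ, hR]
        have : ∑ i ∈ Finset.range n, α (R i) + α (R n)
            + (∑ i ∈ Finset.range n, β (R i) + β (R n))
            = (∑ i ∈ Finset.range n, α (R i) + ∑ i ∈ Finset.range n, β (R i))
              + α (R n) + β (R n) := by abel
        rw [this, ih]
        abel
    have h4 : Tendsto (fun n => f - R n) atTop (𝓝 f) := by
      have h5 : Tendsto R atTop (𝓝 0) := by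
        refine squeeze_zero_norm hRn ?_
        have := (tendsto_pow_atTop_nhds_zero_of_lt_one (r := (1 / 2 : ℝ)) (by norm_num)
          (by norm_num)).const_mul ‖f‖
        simpa using this
      have h6 := h5.const_sub f
      simpa using h6
    have h7 := hsa.hasSum.tendsto_sum_nat.add hsb.hasSum.tendsto_sum_nat
    have h8 : Tendsto (fun n => f - R n) atTop (𝓝 ((∑' n, α (R n)) + ∑' n, β (R n))) := by
      refine h7.congr ?_
      intro n
      exact h3 n
    exact tendsto_nhds_unique h4 h8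

variable {A : Type*} [NormedRing A] [NormedAlgebra ℂ A] [CompleteSpace A] [NormOneClass A]

/-- The main abstract theorem: two products suffice. -/
theorem assemble (I : Submodule ℂ A) (hI : IsClosed (I : Set A))
    (hl : ∀ a x : A, x ∈ I → a * x ∈ I) (hr : ∀ a x : A, x ∈ I → x * a ∈ I)
    (u : ℕ → A) (Nl Nr : ℕ → Seminorm ℂ A) (C : ℝ) (L : LSys u Nl C) (R : RSys u Nr C)
    (hJl : Jsub Nl ≤ I) (hJr : Jsub Nr ≤ I)
    (hLR : ∀ f ∈ I, ∀ ε > 0, ∀ᶠ n in atTop, ∀ᶠ k in atTop, Nr k (u n * f) ≤ ε)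
    (f : A) (hf : f ∈ I) :
    ∃ x₁ ∈ I, ∃ y₁ ∈ I, ∃ x₂ ∈ I, ∃ y₂ ∈ I, f = x₁ * y₁ + x₂ * y₂ := by
  have hC := L.pos
  obtain ⟨a, ha, b, hb, hab⟩ := two_sum I (Jsub Nl) (Jsub Nr)
    (isClosed_Jsub L.pos L.bdd) (isClosed_Jsub R.pos R.bdd) hJl hJr (C * C + 2) (by
      intro f hf
      by_cases hf0 : f = 0
      · refine ⟨0, Submodule.zero_mem _, 0, Submodule.zero_mem _, ?_, ?_, ?_⟩ <;> simp [hf0]
      have hfn : 0 < ‖f‖ := norm_pos_iff.mpr hf0
      obtain ⟨n, hn1, hn2⟩ := ((L.approx (1 / 4) (by norm_num)).and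
        (hLR f hf (‖f‖ / (8 * C)) (by positivity))).exists
      obtain ⟨e, he1, he2⟩ := hn1
      obtain ⟨y, hy1, hy2⟩ := R.dist_le (u n * f) (‖f‖ / (8 * C)) (by positivity) hn2
      have hy3 : ‖u n * f - y‖ ≤ ‖f‖ / 4 := hy2.trans (le_of_eq (by field_simp; norm_num))
      have hu := L.norm_u n
      have he3 : ‖e‖ ≤ C * C + 2 := by
        have h2 : e = (1 - u n) - ((1 - u n) - e) := by abel
        rw [h2]
        calc ‖(1 - u n) - ((1 - u n) - e)‖ ≤ ‖1 - u n‖ + ‖(1 - u n) - e‖ := norm_sub_le _ _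
          _ ≤ (‖(1 : A)‖ + ‖u n‖) + 1 / 4 := by
            gcongr
            exact norm_sub_le _ _
          _ ≤ C * C + 2 := by rw [norm_one]; linarith
      refine ⟨e * f, L.mul_mem e f he1, y, hy1, ?_, ?_, ?_⟩
      · exact (norm_mul_le _ _).trans (by gcongr)
      · have h2 : y = u n * f - (u n * f - y) := by abel
        rw [h2]
        calc ‖u n * f - (u n * f - y)‖ ≤ ‖u n * f‖ + ‖u n * f - y‖ := norm_sub_le _ _
          _ ≤ C * C * ‖f‖ + ‖f‖ / 4 := by
            gcongr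
            exact (norm_mul_le _ _).trans (by gcongr)
          _ ≤ (C * C + 2) * ‖f‖ := by linarith
      · have h3 : f - e * f - y = ((1 - u n) - e) * f + (u n * f - y) := by
          rw [sub_mul, sub_mul, one_mul]
          abel
        rw [h3]
        calc ‖((1 - u n) - e) * f + (u n * f - y)‖
            ≤ ‖((1 - u n) - e) * f‖ + ‖u n * f - y‖ := norm_add_le _ _
          _ ≤ 1 / 4 * ‖f‖ + ‖f‖ / 4 := by
            gcongr
            exact (norm_mul_le _ _).trans (by gcongr)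
          _ = ‖f‖ / 2 := by ring) f hf
  obtain ⟨x₁, hx₁, y₁, hxy₁, g₁, hg₁⟩ := L.factor a ha
  obtain ⟨y₂, hy₂, x₂, hxy₂, g₂, hg₂⟩ := R.factor b hb
  refine ⟨x₁, hJl hx₁, y₁, ?_, x₂, ?_, y₂, hJr hy₂, ?_⟩
  · exact hI.mem_of_tendsto hg₁ (Eventually.of_forall fun k => hl _ _ (hJl ha))
  · exact hI.mem_of_tendsto hg₂ (Eventually.of_forall fun k => hr _ _ (hJr hb))
  · rw [hab, hxy₁, hxy₂]

end Asm

end Pool.Agent.J4H52.IQ
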