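import Mathlib

/-!
# Cohen factorisation

In a unital Banach algebra, every element of a closed subspace `J` with a bounded left approximate
identity consisting of elements of `J` is a product of an element of `J` and a limit of left
multiples of the element.
-/

open Filter Topology

namespace Pool.Agent.J4H52.IQ

section Cohen

variable {A : Type*} [NormedRing A] [NormOneClass A] [NormedAlgebra ℂ A] [CompleteSpace A]

lemma norm_oneSub_inv_le (t : A) (ht : ‖t‖ < 1) (ht' : ‖t‖ ≤ 1 / 2) :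
    ‖(↑(Units.oneSub t ht)⁻¹ : A)‖ ≤ 2 := by
  set W : A := (↑(Units.oneSub t ht)⁻¹ : A) with hW
  have h1 : (1 - t) * W = 1 := by
    have h0 := (Units.oneSub t ht).mul_inv
    rw [Units.val_oneSub] at h0
    exact h0
  have h2 : W = 1 + t * W := by
    have h3 : (1 - t) * W = W - t * W := by rw [sub_mul, one_mul]
    rw [h3] at h1
    exact (sub_eq_iff_eq_add.mp h1)
  have h4 : ‖W‖ ≤ 1 + ‖t‖ * ‖W‖ := by
    calc ‖W‖ = ‖1 + t * W‖ := by rw [← h2]
      _ ≤ ‖(1 : A)‖ + ‖t * W‖ := norm_add_le _ _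
      _ ≤ 1 + ‖t‖ * ‖W‖ := by
        rw [norm_one]
        gcongr
        exact norm_mul_le _ _
  have h5 : ‖t‖ * ‖W‖ ≤ 1 / 2 * ‖W‖ := by gcongr
  linarith

lemma cohen_step (J : Submodule ℂ A) (e : ℕ → A) (K : ℝ)
    (hK : ∀ n, ‖e n‖ ≤ K) (hle : ∀ a ∈ J, Tendsto (fun n => e n * a) atTop (𝓝 a))
    (f : A) (hf : f ∈ J) (c : ℝ) (hc0 : 0 < c) (hc : c * (1 + K) ≤ 1 / 2)
    (b : ℝ) (S : A) (hS : S ∈ J) (v : Aˣ) (hv : (v : A) = (b : ℂ) • (1 : A) + S)
    (δ : ℝ) (hδ : 0 < δ) :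
    ∃ n, ∃ v' : Aˣ, (v' : A) = ((b * (1 - c) : ℝ) : ℂ) • (1 : A) + (S + ((c * b : ℝ) : ℂ) • e n) ∧
      ‖(↑v'⁻¹ : A) * f - (↑v⁻¹ : A) * f‖ ≤ δ := by
  set t : ℕ → A := fun n => (c : ℂ) • (1 - e n) with ht
  have htn : ∀ n, ‖t n‖ ≤ 1 / 2 := by
    intro n
    have h1 : ‖(1 : A) - e n‖ ≤ 1 + K := by
      calc ‖(1 : A) - e n‖ ≤ ‖(1 : A)‖ + ‖e n‖ := norm_sub_le _ _
        _ ≤ 1 + K := by rw [norm_one]; linarith [hK n]
    rw [ht]
    simp only
    rw [norm_smul, Complex.norm_real, Real.norm_of_nonneg hc0.le]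
    exact (mul_le_mul_of_nonneg_left h1 hc0.le).trans hc
  have htn1 : ∀ n, ‖t n‖ < 1 := fun n => lt_of_le_of_lt (htn n) (by norm_num)
  set E : ℕ → Aˣ := fun n => Units.oneSub (t n) (htn1 n) with hE
  set W : ℕ → A := fun n => (↑(E n)⁻¹ : A) with hW
  have hEv : ∀ n, (E n : A) = 1 - t n := fun n => Units.val_oneSub _ _
  have hWn : ∀ n, ‖W n‖ ≤ 2 := fun n => norm_oneSub_inv_le (t n) (htn1 n) (htn n)
  have hEW : ∀ n, (E n : A) * W n = 1 := fun n => (E n).mul_inv
  have hWE : ∀ n, W n * (E n : A) = 1 := fun n => (E n).inv_mul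
  have hWa : ∀ a ∈ J, Tendsto (fun n => W n * a) atTop (𝓝 a) := by
    intro a ha
    have h1 : ∀ n, W n * a - a = W n * ((c : ℂ) • (a - e n * a)) := by
      intro n
      have h2 : a = W n * ((1 - t n) * a) := by
        rw [← hEv, ← mul_assoc, hWE, one_mul]
      have h3 : (c : ℂ) • (a - e n * a) = t n * a := by
        rw [ht]
        simp only
        rw [smul_mul_assoc, sub_mul, one_mul]
      rw [h3]
      conv_lhs => rw [h2]
      conv_lhs =>
        rw [← h2]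
      conv_lhs =>
        rhs
        rw [h2]
      rw [← mul_sub]
      congr 1
      rw [sub_mul, one_mul]
      abel
    have h4 : Tendsto (fun n => W n * a - a) atTop (𝓝 0) := by
      have h5 : Tendsto (fun n => 2 * ‖(c : ℂ) • (a - e n * a)‖) atTop (𝓝 0) := by
        have h6 : Tendsto (fun n => (c : ℂ) • (a - e n * a)) atTop (𝓝 ((c : ℂ) • (a - a))) :=
          (tendsto_const_nhds.sub (hle a ha)).const_smul _
        rw [sub_self, smul_zero] at h6
        have h7 := h6.norm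
        rw [norm_zero] at h7
        simpa using h7.const_mul 2
      refine squeeze_zero_norm ?_ h5
      intro n
      rw [h1]
      refine (norm_mul_le _ _).trans ?_
      gcongr
      exact hWn n
    have h8 := h4.add_const a
    simpa using h8
  set z : ℕ → A := fun n => (b : ℂ) • (1 : A) + W n * S with hz
  have hzt : Tendsto z atTop (𝓝 (v : A)) := by
    rw [hv]
    exact tendsto_const_nhds.add (hWa S hS)
  have hinv : Tendsto (fun n => Ring.inverse (z n)) atTop (𝓝 (↑v⁻¹ : A)) := by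
    have h1 := (NormedRing.inverse_continuousAt v).tendsto.comp hzt
    rw [Ring.inverse_unit] at h1
    exact h1
  have hF : Tendsto (fun n => Ring.inverse (z n) * (W n * f)) atTop (𝓝 ((↑v⁻¹ : A) * f)) :=
    hinv.mul (hWa f hf)
  have hev1 : ∀ᶠ n in atTop, IsUnit (z n) := hzt.eventually (Units.nhds v)
  have hev2 : ∀ᶠ n in atTop, ‖Ring.inverse (z n) * (W n * f) - (↑v⁻¹ : A) * f‖ < δ := by
    have h1 := (hF.sub_const ((↑v⁻¹ : A) * f)).norm
    rw [sub_self, norm_zero] at h1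
    exact h1.eventually (gt_mem_nhds hδ)
  obtain ⟨n, hn1, hn2⟩ := (hev1.and hev2).exists
  obtain ⟨zu, hzu⟩ := hn1
  refine ⟨n, E n * zu, ?_, ?_⟩
  · rw [Units.val_mul, hzu, hz]
    simp only
    rw [mul_add, ← mul_assoc, hEW, one_mul, hEv, ht]
    simp only
    rw [mul_smul_comm, mul_one, smul_sub, smul_smul, smul_sub]
    push_cast
    rw [mul_sub, mul_one, sub_smul]
    rw [mul_comm (b : ℂ) (c : ℂ)]
    abel
  · rw [mul_inv_rev, Units.val_mul, mul_assoc]
    have h1 : (↑zu⁻¹ : A) = Ring.inverse (z n) := by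
      rw [← hzu, Ring.inverse_unit]
    rw [h1]
    exact hn2.le

/-- Cohen's factorisation theorem. -/
theorem cohen (J : Submodule ℂ A) (hJ : IsClosed (J : Set A)) (e : ℕ → A)
    (heJ : ∀ n, e n ∈ J) (K : ℝ) (hK : ∀ n, ‖e n‖ ≤ K)
    (hle : ∀ a ∈ J, Tendsto (fun n => e n * a) atTop (𝓝 a)) (f : A) (hf : f ∈ J) :
    ∃ x ∈ J, ∃ y : A, f = x * y ∧ ∃ g : ℕ → A, Tendsto (fun k => g k * f) atTop (𝓝 y) := by
  have hK0 : 0 ≤ K := (norm_nonneg _).trans (hK 0)
  set c : ℝ := 1 / (2 * (1 + K)) with hc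
  have hc0 : 0 < c := by positivity
  have hc1 : c * (1 + K) ≤ 1 / 2 := by
    rw [hc]
    have : (1 + K) ≠ 0 := by positivity
    field_simp
    exact le_refl _
  have hc2 : c ≤ 1 / 2 := by
    have : c * 1 ≤ c * (1 + K) := by gcongr; linarith
    linarith
  -- the states
  let St : ℕ → Type _ := fun k => {p : A × Aˣ // p.1 ∈ J ∧
    (p.2 : A) = (((1 - c) ^ k : ℝ) : ℂ) • (1 : A) + p.1}
  have hstep : ∀ k (s : St k), ∃ s' : St (k + 1),
      ‖s'.1.1 - s.1.1‖ ≤ c * (1 - c) ^ k * K ∧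
      ‖(↑s'.1.2⁻¹ : A) * f - (↑s.1.2⁻¹ : A) * f‖ ≤ (1 / 2) ^ k := by
    intro k s
    obtain ⟨n, v', hv', hn⟩ := cohen_step J e K hK hle f hf c hc0 hc1 ((1 - c) ^ k) s.1.1 s.2.1
      s.1.2 s.2.2 ((1 / 2) ^ k) (by positivity)
    refine ⟨⟨(s.1.1 + ((c * (1 - c) ^ k : ℝ) : ℂ) • e n, v'), ?_, ?_⟩, ?_, hn⟩
    · exact J.add_mem s.2.1 (J.smul_mem _ (heJ n))
    · rw [pow_succ]
      exact hv'
    · simp only [add_sub_cancel_left]
      rw [norm_smul, Complex.norm_real, Real.norm_of_nonneg]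
      · gcongr
        · have : 0 ≤ 1 - c := by linarith
          positivity
        · exact hK n
      · have : 0 ≤ 1 - c := by linarith
        positivity
  choose nx hnx1 hnx2 using hstep
  let s0 : St 0 := ⟨(0, 1), J.zero_mem, by simp⟩
  let seq : ∀ k, St k := fun k => Nat.rec s0 (fun k s => nx k s) k
  have hseq : ∀ k, seq (k + 1) = nx k (seq k) := fun k => rfl
  set S : ℕ → A := fun k => (seq k).1.1 with hSdef
  set V : ℕ → Aˣ := fun k => (seq k).1.2 with hVdef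
  have hSJ : ∀ k, S k ∈ J := fun k => (seq k).2.1
  have hVS : ∀ k, (V k : A) = (((1 - c) ^ k : ℝ) : ℂ) • (1 : A) + S k := fun k => (seq k).2.2
  have h1c0 : 0 ≤ 1 - c := by linarith
  have h1c : 1 - c < 1 := by linarith
  have hScauchy : CauchySeq S := by
    refine cauchySeq_of_le_geometric (1 - c) (c * K) h1c ?_
    intro k
    rw [dist_comm, dist_eq_norm]
    have := hnx1 k (seq k)
    rw [← hseq] at this
    calc ‖S (k + 1) - S k‖ ≤ c * (1 - c) ^ k * K := this
      _ = c * K * (1 - c) ^ k := by ring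
  have hYcauchy : CauchySeq (fun k => (↑(V k)⁻¹ : A) * f) := by
    refine cauchySeq_of_le_geometric (1 / 2) 1 (by norm_num) ?_
    intro k
    rw [dist_comm, dist_eq_norm, one_mul]
    have := hnx2 k (seq k)
    rw [← hseq] at this
    exact this
  obtain ⟨x, hx⟩ := cauchySeq_tendsto_of_complete hScauchy
  obtain ⟨y, hy⟩ := cauchySeq_tendsto_of_complete hYcauchy
  have hxJ : x ∈ J := hJ.mem_of_tendsto hx (Eventually.of_forall hSJ)
  have hpow : Tendsto (fun k => (((1 - c) ^ k : ℝ) : ℂ) • (1 : A)) atTop (𝓝 0) := by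
    have h1 : Tendsto (fun k : ℕ => (1 - c) ^ k) atTop (𝓝 0) :=
      tendsto_pow_atTop_nhds_zero_of_lt_one h1c0 h1c
    have h2 : Tendsto (fun k : ℕ => (((1 - c) ^ k : ℝ) : ℂ)) atTop (𝓝 ((0 : ℝ) : ℂ)) :=
      (Complex.continuous_ofReal.tendsto 0).comp h1
    have h3 := h2.smul_const (1 : A)
    simpa using h3
  have hV : Tendsto (fun k => (V k : A)) atTop (𝓝 x) := by
    have h1 := hpow.add hx
    rw [zero_add] at h1
    refine h1.congr ?_
    intro k
    exact (hVS k).symm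
  have hxy : Tendsto (fun k => (V k : A) * ((↑(V k)⁻¹ : A) * f)) atTop (𝓝 (x * y)) := hV.mul hy
  have hconst : (fun k => (V k : A) * ((↑(V k)⁻¹ : A) * f)) = fun _ => f := by
    funext k
    rw [← mul_assoc, Units.mul_inv, one_mul]
  rw [hconst] at hxy
  exact ⟨x, hxJ, y, tendsto_nhds_unique tendsto_const_nhds hxy, fun k => (↑(V k)⁻¹ : A), hy⟩

end Cohen

end Pool.Agent.J4H52.IQ
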