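import Pool.Agent.J4H52.IQ.Mean

/-!
# Cofinite ideals of the group algebra: duality data and the character
-/

open Filter Topology

open scoped BoundedContinuousFunction

namespace Pool.Agent.J4H52.IQ

open Al

section Fin

variable {G : Type*} [DecidableEq G] [Group G] [TopologicalSpace G] [DiscreteTopology G]
  {ι : Type} [Fintype ι] (g : ι → G)

/-- The bounded function of a functional. -/
noncomputable def bf (L : Al G →L[ℂ] ℂ) : G →ᵇ ℂ :=
  BoundedContinuousFunction.ofNormedAddCommGroup (fun x => L (delta x))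
    continuous_of_discreteTopology ‖L‖ (by
      intro x
      have := L.le_opNorm (delta x)
      rwa [norm_delta, mul_one] at this)

@[simp] lemma bf_apply (L : Al G →L[ℂ] ℂ) (x : G) : bf L x = L (delta x) := rfl

lemma aug_M_bf (L : Al G →L[ℂ] ℂ) (f : Al G) : aug (M (bf L) f) = L f := by
  have h : (aug (G := G)).comp (M (bf L)) = L := by
    refine clm_ext fun x => ?_
    rw [ContinuousLinearMap.comp_apply, M_delta, map_smul, aug_delta, bf_apply, smul_eq_mul,
      mul_one]
  exact congrArg (fun T : Al G →L[ℂ] ℂ => T f) h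

lemma aug_mul (f f' : Al G) : aug (f * f') = aug f * aug f' := by
  have h : (ContinuousLinearMap.compL ℂ (Al G) (Al G) ℂ (aug (G := G))).comp
        (ContinuousLinearMap.mul ℂ (Al G))
      = (ContinuousLinearMap.mul ℂ ℂ).bilinearComp (aug (G := G)) (aug (G := G)) := by
    refine bil_ext fun x y => ?_
    change aug (delta x * delta y) = aug (delta x) * aug (delta y)
    rw [delta_mul_delta, aug_delta, aug_delta, aug_delta, mul_one]
  exact congrArg (fun B : Al G →L[ℂ] Al G →L[ℂ] ℂ => B f f') h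

lemma norm_aug_le (f : Al G) : ‖aug f‖ ≤ ‖f‖ := by
  have := norm_lift_le (fun _ : G => (1 : ℂ)) 1 (by simp) f
  rwa [one_mul] at this

lemma aug_one : aug (1 : Al G) = 1 := aug_delta 1

lemma aug_mm [Nonempty ι] : aug (mm g) = 1 := by
  have hcc : (Fintype.card ι : ℂ) ≠ 0 := by exact_mod_cast Fintype.card_ne_zero
  rw [mm, map_smul, map_sum]
  simp only [aug_delta, Finset.sum_const, Finset.card_univ, nsmul_eq_mul, mul_one, smul_eq_mul]
  exact inv_mul_cancel₀ hcc

lemma aug_mm_pow [Nonempty ι] (n : ℕ) : aug (mm g ^ n) = 1 := by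
  induction n with
  | zero => rw [pow_zero, aug_one]
  | succ n ih => rw [pow_succ, aug_mul, ih, aug_mm, mul_one]

lemma aug_mb [Nonempty ι] (k : ℕ) (hk : k ≠ 0) : aug (mb g k) = 1 := by
  rw [mb, map_smul, map_sum]
  simp only [aug_mm_pow, Finset.sum_const, Finset.card_range, nsmul_eq_mul, mul_one, smul_eq_mul]
  exact inv_mul_cancel₀ (by exact_mod_cast hk)

/-- Composition with a map, as a linear map. -/
noncomputable def cmpL (s : G → G) : (G →ᵇ ℂ) →ₗ[ℂ] (G →ᵇ ℂ) where
  toFun φ := cmp φ s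
  map_add' _ _ := rfl
  map_smul' _ _ := rfl

/-- Duality data for a cofinite two-sided ideal. -/
structure Dat (I : Submodule ℂ (Al G)) (κ : Type) [Fintype κ] [DecidableEq κ] where
  lam : κ → Al G →L[ℂ] ℂ
  a : κ → Al G
  dual : ∀ i j, lam i (a j) = if i = j then 1 else 0
  mem : ∀ f, f ∈ I ↔ ∀ i, lam i f = 0
  hl : ∀ b x, x ∈ I → b * x ∈ I
  hr : ∀ b x, x ∈ I → x * b ∈ I

namespace Dat

variable {I : Submodule ℂ (Al G)} {κ : Type} [Fintype κ] [DecidableEq κ] (D : Dat I κ)

lemma sub_mem (f : Al G) : f - ∑ j, D.lam j f • D.a j ∈ I := by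
  rw [D.mem]
  intro i
  rw [map_sub, map_sum]
  simp only [map_smul, D.dual, smul_eq_mul, mul_ite, mul_one, mul_zero, Finset.sum_ite_eq,
    Finset.mem_univ, if_true]
  exact sub_self _

lemma e1 (i : κ) (f f' : Al G) :
    D.lam i (f * f') = ∑ j, D.lam j f * D.lam i (D.a j * f') := by
  have h := (D.mem _).mp (D.hr f' _ (D.sub_mem f)) i
  rw [sub_mul, map_sub, sub_eq_zero] at h
  rw [h, Finset.sum_mul, map_sum]
  refine Finset.sum_congr rfl fun j _ => ?_
  rw [smul_mul_assoc, map_smul, smul_eq_mul]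

lemma e2 (i : κ) (f f' : Al G) :
    D.lam i (f * f') = ∑ j, D.lam j f' * D.lam i (f * D.a j) := by
  have h := (D.mem _).mp (D.hl f _ (D.sub_mem f')) i
  rw [mul_sub, map_sub, sub_eq_zero] at h
  rw [h, Finset.mul_sum, map_sum]
  refine Finset.sum_congr rfl fun j _ => ?_
  rw [mul_smul_comm, map_smul, smul_eq_mul]

/-- The functionals, as functions on the group. -/
noncomputable def ph (i : κ) : G →ᵇ ℂ := bf (D.lam i)

/-- The matrix of right multiplication. -/
noncomputable def b (i j : κ) : G →ᵇ ℂ :=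
  bf ((D.lam i).comp (ContinuousLinearMap.mul ℂ (Al G) (D.a j)))

/-- The matrix of left multiplication. -/
noncomputable def b' (i j : κ) : G →ᵇ ℂ :=
  bf ((D.lam i).comp ((ContinuousLinearMap.mul ℂ (Al G)).flip (D.a j)))

lemma ph_apply (i : κ) (x : G) : D.ph i x = D.lam i (delta x) := rfl

lemma b_apply (i j : κ) (x : G) : D.b i j x = D.lam i (D.a j * delta x) := rfl

lemma b'_apply (i j : κ) (x : G) : D.b' i j x = D.lam i (delta x * D.a j) := rfl

lemma ph_mul (i : κ) (x y : G) : D.ph i (x * y) = ∑ j, D.ph j x * D.b i j y := by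
  rw [ph_apply, ← delta_mul_delta, D.e1]
  rfl

lemma ph_mul' (i : κ) (x y : G) : D.ph i (x * y) = ∑ j, D.ph j y * D.b' i j x := by
  rw [ph_apply, ← delta_mul_delta, D.e2]
  rfl

/-- The functions `t ↦ φᵢ(t⁻¹) φⱼ(t)`. -/
noncomputable def w (i j : κ) : G →ᵇ ℂ := cmp (D.ph i) (fun t => t⁻¹) * D.ph j

lemma w_apply (i j : κ) (t : G) : D.w i j t = D.ph i t⁻¹ * D.ph j t := rfl

lemma w_left (i j : κ) (x : G) : cmp (D.w i j) (fun t => x * t)
    = ∑ p : κ × κ, (D.b i p.1 x⁻¹ * D.b' j p.2 x) • D.w p.1 p.2 := by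
  ext t
  rw [cmp_apply, w_apply, mul_inv_rev, D.ph_mul i, D.ph_mul' j, Finset.sum_mul_sum]
  simp only [BoundedContinuousFunction.coe_sum, Finset.sum_apply,
    BoundedContinuousFunction.coe_smul, smul_eq_mul, w_apply, Fintype.sum_prod_type]
  refine Finset.sum_congr rfl fun k _ => Finset.sum_congr rfl fun l _ => ?_
  ring

lemma w_right (i j : κ) (x : G) : cmp (D.w i j) (fun t => t * x)
    = ∑ p : κ × κ, (D.b' i p.1 x⁻¹ * D.b j p.2 x) • D.w p.1 p.2 := by
  ext t
  rw [cmp_apply, w_apply, mul_inv_rev, D.ph_mul' i, D.ph_mul j, Finset.sum_mul_sum]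
  simp only [BoundedContinuousFunction.coe_sum, Finset.sum_apply,
    BoundedContinuousFunction.coe_smul, smul_eq_mul, w_apply, Fintype.sum_prod_type]
  refine Finset.sum_congr rfl fun k _ => Finset.sum_congr rfl fun l _ => ?_
  ring

/-- The span of the functions `w`. -/
noncomputable def W : Submodule ℂ (G →ᵇ ℂ) :=
  Submodule.span ℂ (Set.range fun p : κ × κ => D.w p.1 p.2)

instance : FiniteDimensional ℂ D.W := FiniteDimensional.span_of_finite ℂ (Set.finite_range _)

lemma w_mem (i j : κ) : D.w i j ∈ D.W := Submodule.subset_span ⟨(i, j), rfl⟩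

lemma W_left (x : G) (φ : G →ᵇ ℂ) (hφ : φ ∈ D.W) : cmp φ (fun t => x * t) ∈ D.W := by
  have h : D.W ≤ D.W.comap (cmpL (fun t => x * t)) := by
    rw [W, Submodule.span_le]
    rintro _ ⟨p, rfl⟩
    change cmp (D.w p.1 p.2) (fun t => x * t) ∈ D.W
    rw [D.w_left]
    exact D.W.sum_mem fun q _ => D.W.smul_mem _ (D.w_mem _ _)
  exact h hφ

lemma W_right (x : G) (φ : G →ᵇ ℂ) (hφ : φ ∈ D.W) : cmp φ (fun t => t * x) ∈ D.W := by
  have h : D.W ≤ D.W.comap (cmpL (fun t => t * x)) := by
    rw [W, Submodule.span_le]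
    rintro _ ⟨p, rfl⟩
    change cmp (D.w p.1 p.2) (fun t => t * x) ∈ D.W
    rw [D.w_right]
    exact D.W.sum_mem fun q _ => D.W.smul_mem _ (D.w_mem _ _)
  exact h hφ

/-- The coefficients of the character. -/
noncomputable def al (k : κ) : ℂ := ∑ i, D.lam i (D.a k * D.a i)

/-- The function `t ↦ χ(t⁻¹)`. -/
noncomputable def kap : G →ᵇ ℂ := ∑ k, D.al k • cmp (D.ph k) (fun t => t⁻¹)

lemma kap_apply (t : G) : D.kap t = ∑ k, D.al k * D.ph k t⁻¹ := by
  rw [kap]
  simp only [BoundedContinuousFunction.coe_sum, Finset.sum_apply,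
    BoundedContinuousFunction.coe_smul, smul_eq_mul, cmp_apply]

lemma kap_mul (j : κ) : D.ph j * D.kap = ∑ k, D.al k • D.w k j := by
  ext t
  simp only [BoundedContinuousFunction.mul_apply, kap_apply, BoundedContinuousFunction.coe_sum,
    Finset.sum_apply, BoundedContinuousFunction.coe_smul, smul_eq_mul, w_apply, Finset.mul_sum]
  refine Finset.sum_congr rfl fun k _ => ?_
  ring

variable [Nonempty ι]

theorem mean_kap (hg : Submonoid.closure (Set.range g) = ⊤) (j : κ) :
    (∃ η : G →ᵇ ℂ, ∀ x, (D.ph j * D.kap) x = D.lam j 1 + (η x - Pv (stR g) η x)) ∧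
    (∃ η : G →ᵇ ℂ, ∀ x, (D.ph j * D.kap) x = D.lam j 1 + (η x - Pv (stL g) η x)) := by
  have hb := fun i j => both g hg D.W D.W_left D.W_right (D.w i j) (D.w_mem i j)
  choose c hc _ using hb
  have hc' : ∀ i j, IsMean g (D.w i j) (c i j) := hc
  -- first relation
  have hE1 : ∀ i j x, ∑ k, D.b' j k x * c i k = ∑ k, D.b i k x * c k j := by
    intro i j x
    have h1 : IsMean g (∑ k, D.b' j k x • D.w i k) (∑ k, D.b' j k x * c i k) :=
      IsMean.sum g Finset.univ _ _ _ fun k => hc' i k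
    have h2 : IsMean g (∑ k, D.b i k x • D.w k j) (∑ k, D.b i k x * c k j) :=
      IsMean.sum g Finset.univ _ _ _ fun k => hc' k j
    have h3 := IsMean.cmp_left g h2 x
    have h4 : cmp (∑ k, D.b i k x • D.w k j) (fun t => x * t) = ∑ k, D.b' j k x • D.w i k := by
      ext t
      simp only [cmp_apply, BoundedContinuousFunction.coe_sum,
        Finset.sum_apply, BoundedContinuousFunction.coe_smul, smul_eq_mul, w_apply]
      have h5 : ∑ k, D.b i k x * (D.ph k (x * t)⁻¹ * D.ph j (x * t))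
          = D.ph i t⁻¹ * D.ph j (x * t) := by
        have h6 : D.ph i t⁻¹ = D.ph i ((x * t)⁻¹ * x) := by
          congr 1
          group
        rw [h6, D.ph_mul i, Finset.sum_mul]
        refine Finset.sum_congr rfl fun k _ => ?_
        ring
      rw [h5, D.ph_mul' j x t, Finset.mul_sum]
      refine Finset.sum_congr rfl fun k _ => ?_
      ring
    rw [h4] at h3
    exact IsMean.unique g h1 h3
  have hE1' : ∀ i j (x : Al G), ∑ k, c i k * D.lam j (x * D.a k)
      = ∑ k, c k j * D.lam i (D.a k * x) := by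
    intro i j x
    have h : (∑ k, c i k • (D.lam j).comp ((ContinuousLinearMap.mul ℂ (Al G)).flip (D.a k)))
        = ∑ k, c k j • (D.lam i).comp (ContinuousLinearMap.mul ℂ (Al G) (D.a k)) := by
      refine clm_ext fun x => ?_
      simp only [_root_.sum_apply, _root_.smul_apply, smul_eq_mul]
      have h1 := hE1 i j x
      have h2 : ∀ k, ((D.lam j).comp ((ContinuousLinearMap.mul ℂ (Al G)).flip (D.a k))) (delta x)
          = D.b' j k x := fun k => rfl
      have h3 : ∀ k, ((D.lam i).comp (ContinuousLinearMap.mul ℂ (Al G) (D.a k))) (delta x)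
          = D.b i k x := fun k => rfl
      simp only [h2, h3]
      simp only [mul_comm (c _ _)]
      exact h1
    have h1 := congrArg (fun T : Al G →L[ℂ] ℂ => T x) h
    simp only [_root_.sum_apply, _root_.smul_apply, smul_eq_mul] at h1
    exact h1
  -- second relation
  have hE2 : ∑ i, ∑ k, c i k * D.lam j (D.a i * D.a k) = D.lam j 1 := by
    have h1 : IsMean g (∑ p : κ × κ, D.lam j (D.a p.1 * D.a p.2) • D.w p.1 p.2)
        (∑ p : κ × κ, D.lam j (D.a p.1 * D.a p.2) * c p.1 p.2) :=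
      IsMean.sum g Finset.univ _ _ _ fun p => hc' p.1 p.2
    have h2 : (∑ p : κ × κ, D.lam j (D.a p.1 * D.a p.2) • D.w p.1 p.2)
        = BoundedContinuousFunction.const G (D.lam j 1) := by
      ext t
      simp only [BoundedContinuousFunction.coe_sum,
        Finset.sum_apply, BoundedContinuousFunction.coe_smul, smul_eq_mul, w_apply,
        Fintype.sum_prod_type, BoundedContinuousFunction.const_apply]
      have h3 : D.lam j 1 = ∑ i, D.ph i t⁻¹ * D.lam j (D.a i * delta t) := by
        have h4 : (1 : Al G) = delta t⁻¹ * delta t := by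
          rw [delta_mul_delta, inv_mul_cancel, one_def]
        rw [h4, D.e1]
        rfl
      rw [h3]
      refine Finset.sum_congr rfl fun i _ => ?_
      rw [D.e2, Finset.mul_sum]
      refine Finset.sum_congr rfl fun k _ => ?_
      rw [ph_apply D k]
      ring
    rw [h2] at h1
    have h3 := IsMean.unique g h1 (isMean_const g (D.lam j 1))
    rw [Fintype.sum_prod_type] at h3
    rw [← h3]
    refine Finset.sum_congr rfl fun i _ => Finset.sum_congr rfl fun k _ => ?_
    ring
  have hal : ∑ k, D.al k * c k j = D.lam j 1 := by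
    rw [← hE2]
    simp only [hE1', al, Finset.sum_mul]
    rw [Finset.sum_comm]
    refine Finset.sum_congr rfl fun i _ => Finset.sum_congr rfl fun k _ => ?_
    ring
  have hm : IsMean g (D.ph j * D.kap) (D.lam j 1) := by
    rw [D.kap_mul, ← hal]
    exact IsMean.sum g Finset.univ _ _ _ fun k => hc' k j
  have hW : D.ph j * D.kap ∈ D.W := by
    rw [D.kap_mul]
    exact D.W.sum_mem fun k _ => D.W.smul_mem _ (D.w_mem _ _)
  obtain ⟨c0, hR, hL⟩ := both g hg D.W D.W_left D.W_right _ hW
  have hc0 : c0 = D.lam j 1 := IsMean.unique g hR hm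
  rw [hc0] at hR hL
  obtain ⟨η, hη⟩ := hR
  obtain ⟨η', hη'⟩ := hL
  refine ⟨⟨η, fun x => ?_⟩, ⟨η', fun x => ?_⟩⟩
  · exact congrArg (fun f : G →ᵇ ℂ => f x) hη
  · exact congrArg (fun f : G →ᵇ ℂ => f x) hη'

end Dat

end Fin

end Pool.Agent.J4H52.IQ
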