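import Pool.Agent.J4H52.IQ.Main

/-!
# Closed cofinite ideals of `ℓ¹(G)` for a finitely generated group `G`
-/

open Filter Topology

namespace Pool.Agent.J4H52.IQ

open Al

/-- Every element of a closed cofinite two-sided ideal of `ℓ¹(G)` is the sum of two products of
elements of the ideal. -/
theorem cofinite {G : Type*} [DecidableEq G] [Group G] {ι : Type} [Fintype ι] [Nonempty ι]
    (g : ι → G) (hg : Submonoid.closure (Set.range g) = ⊤) (I : Submodule ℂ (Al G))
    (hI : IsClosed (I : Set (Al G)))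
    (hl : ∀ b x : Al G, x ∈ I → b * x ∈ I) (hr : ∀ b x : Al G, x ∈ I → x * b ∈ I)
    [hfin : Module.Finite ℂ (Al G ⧸ I)] (f : Al G) (hf : f ∈ I) :
    ∃ x₁ ∈ I, ∃ y₁ ∈ I, ∃ x₂ ∈ I, ∃ y₂ ∈ I, f = x₁ * y₁ + x₂ * y₂ := by
  letI : TopologicalSpace G := ⊥
  haveI : DiscreteTopology G := ⟨rfl⟩
  haveI := hI
  let bs := Module.finBasis ℂ (Al G ⧸ I)
  choose a ha using fun j => Submodule.Quotient.mk_surjective I (bs j)
  have hcont : ∀ i, Continuous ((bs.coord i) ∘ₗ I.mkQ) := fun i =>
    (LinearMap.continuous_of_finiteDimensional (bs.coord i)).comp continuous_quot_mk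
  let D : Dat I (Fin (Module.finrank ℂ (Al G ⧸ I))) :=
    { lam := fun i => ⟨(bs.coord i) ∘ₗ I.mkQ, hcont i⟩
      a := a
      dual := by
        intro i j
        change bs.coord i (I.mkQ (a j)) = _
        rw [Submodule.mkQ_apply, ha j, Module.Basis.coord_apply, Module.Basis.repr_self,
          Finsupp.single_apply]
        simp only [eq_comm]
      mem := by
        intro f
        change _ ↔ ∀ i, bs.coord i (I.mkQ f) = 0
        rw [bs.forall_coord_eq_zero_iff, Submodule.mkQ_apply, Submodule.Quotient.mk_eq_zero]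
      hl := hl
      hr := hr }
  exact D.factor g hg hI f hf

end Pool.Agent.J4H52.IQ
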