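import Pool.Agent.J4H52.IQ.Fin

/-!
# Closed cofinite ideals of the group algebra of a finitely generated group are idempotent
-/

open Filter Topology

open scoped BoundedContinuousFunction

namespace Pool.Agent.J4H52.IQ

open Al

section Main

variable {G : Type*} [DecidableEq G] [Group G] [TopologicalSpace G] [DiscreteTopology G]
  {ι : Type} [Fintype ι] (g : ι → G)

namespace Dat

variable {I : Submodule ℂ (Al G)} {κ : Type} [Fintype κ] [DecidableEq κ] (D : Dat I κ)

/-- The approximate units of the complement. -/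
noncomputable def uu (n : ℕ) : Al G := M D.kap (mb g n)

/-- The left seminorms. -/
noncomputable def Nl (k : ℕ) : Seminorm ℂ (Al G) :=
  Seminorm.of (fun f => ∑ j, ‖mb g k * M (D.ph j) f‖)
    (by
      intro f f'
      rw [← Finset.sum_add_distrib]
      refine Finset.sum_le_sum fun j _ => ?_
      rw [map_add, mul_add]
      exact norm_add_le _ _)
    (by
      intro c f
      rw [Finset.mul_sum]
      refine Finset.sum_congr rfl fun j _ => ?_
      rw [map_smul, mul_smul_comm, norm_smul])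

/-- The right seminorms. -/
noncomputable def Nr (k : ℕ) : Seminorm ℂ (Al G) :=
  Seminorm.of (fun f => ∑ j, ‖M (D.ph j) f * mb g k‖)
    (by
      intro f f'
      rw [← Finset.sum_add_distrib]
      refine Finset.sum_le_sum fun j _ => ?_
      rw [map_add, add_mul]
      exact norm_add_le _ _)
    (by
      intro c f
      rw [Finset.mul_sum]
      refine Finset.sum_congr rfl fun j _ => ?_
      rw [map_smul, smul_mul_assoc, norm_smul])

lemma Nl_apply (k : ℕ) (f : Al G) : D.Nl g k f = ∑ j, ‖mb g k * M (D.ph j) f‖ := rfl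

lemma Nr_apply (k : ℕ) (f : Al G) : D.Nr g k f = ∑ j, ‖M (D.ph j) f * mb g k‖ := rfl

/-- Left coefficient functions. -/
noncomputable def dl (j : κ) : G →ᵇ ℂ := ∑ i, D.al i • cmp (D.b i j) (fun t => t⁻¹)

/-- Right coefficient functions. -/
noncomputable def dr (j : κ) : G →ᵇ ℂ := ∑ i, D.al i • cmp (D.b' i j) (fun t => t⁻¹)

lemma dl_apply (j : κ) (t : G) : D.dl j t = ∑ i, D.al i * D.b i j t⁻¹ := by
  rw [dl]
  simp only [BoundedContinuousFunction.coe_sum, Finset.sum_apply,
    BoundedContinuousFunction.coe_smul, smul_eq_mul, cmp_apply]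

lemma dr_apply (j : κ) (t : G) : D.dr j t = ∑ i, D.al i * D.b' i j t⁻¹ := by
  rw [dr]
  simp only [BoundedContinuousFunction.coe_sum, Finset.sum_apply,
    BoundedContinuousFunction.coe_smul, smul_eq_mul, cmp_apply]

lemma kap_l (x y : G) : D.kap x = ∑ j, D.ph j y * D.dl j (x * y) := by
  rw [kap_apply]
  simp only [dl_apply, Finset.mul_sum]
  rw [Finset.sum_comm]
  refine Finset.sum_congr rfl fun i _ => ?_
  have h : x⁻¹ = y * (x * y)⁻¹ := by group
  rw [h, D.ph_mul, Finset.mul_sum]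
  refine Finset.sum_congr rfl fun j _ => ?_
  ring

lemma kap_r (x y : G) : D.kap x = ∑ j, D.ph j y * D.dr j (y * x) := by
  rw [kap_apply]
  simp only [dr_apply, Finset.mul_sum]
  rw [Finset.sum_comm]
  refine Finset.sum_congr rfl fun i _ => ?_
  have h : x⁻¹ = (y * x)⁻¹ * y := by group
  rw [h, D.ph_mul', Finset.mul_sum]
  refine Finset.sum_congr rfl fun j _ => ?_
  ring

lemma L1 (f f' : Al G) : M D.kap f * f' = ∑ j, M (D.dl j) (f * M (D.ph j) f') := by
  have h := bil_eq (Finset.univ : Finset Unit) (Finset.univ : Finset κ)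
    (fun _ => ContinuousLinearMap.id ℂ (Al G)) (fun _ => M D.kap)
    (fun _ => ContinuousLinearMap.id ℂ (Al G))
    (fun j => M (D.dl j)) (fun _ => ContinuousLinearMap.id ℂ (Al G)) (fun j => M (D.ph j)) (by
      intro x y
      simp only [Finset.univ_unique, Finset.sum_singleton, ContinuousLinearMap.id_apply, M_delta,
        smul_mul_assoc, mul_smul_comm, delta_mul_delta, map_smul, smul_smul]
      rw [← Finset.sum_smul, ← D.kap_l x y]) f f'
  simpa using h

lemma R1 (f f' : Al G) : f' * M D.kap f = ∑ j, M (D.dr j) (M (D.ph j) f' * f) := by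
  have h := bil_eq (Finset.univ : Finset Unit) (Finset.univ : Finset κ)
    (fun _ => ContinuousLinearMap.id ℂ (Al G))
    (fun _ => ContinuousLinearMap.id ℂ (Al G)) (fun _ => M D.kap)
    (fun j => M (D.dr j)) (fun j => M (D.ph j)) (fun _ => ContinuousLinearMap.id ℂ (Al G)) (by
      intro y x
      simp only [Finset.univ_unique, Finset.sum_singleton, ContinuousLinearMap.id_apply, M_delta,
        smul_mul_assoc, mul_smul_comm, delta_mul_delta, map_smul, smul_smul]
      rw [← Finset.sum_smul, ← D.kap_r x y]) f' f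
  simpa using h

lemma L2 (i : κ) (f f' : Al G) : M (D.ph i) (f * f') = ∑ j, M (D.ph j) f * M (D.b i j) f' := by
  have h := bil_eq (Finset.univ : Finset Unit) (Finset.univ : Finset κ)
    (fun _ => M (D.ph i))
    (fun _ => ContinuousLinearMap.id ℂ (Al G)) (fun _ => ContinuousLinearMap.id ℂ (Al G))
    (fun _ => ContinuousLinearMap.id ℂ (Al G)) (fun j => M (D.ph j)) (fun j => M (D.b i j)) (by
      intro x y
      simp only [Finset.univ_unique, Finset.sum_singleton, ContinuousLinearMap.id_apply, M_delta,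
        smul_mul_assoc, mul_smul_comm, delta_mul_delta, map_smul, smul_smul]
      rw [← Finset.sum_smul, D.ph_mul i x y]
      congr 1
      refine Finset.sum_congr rfl fun j _ => ?_
      ring) f f'
  simpa using h

lemma R2 (i : κ) (f f' : Al G) : M (D.ph i) (f' * f) = ∑ j, M (D.b' i j) f' * M (D.ph j) f := by
  have h := bil_eq (Finset.univ : Finset Unit) (Finset.univ : Finset κ)
    (fun _ => M (D.ph i))
    (fun _ => ContinuousLinearMap.id ℂ (Al G)) (fun _ => ContinuousLinearMap.id ℂ (Al G))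
    (fun _ => ContinuousLinearMap.id ℂ (Al G)) (fun j => M (D.b' i j)) (fun j => M (D.ph j)) (by
      intro x y
      simp only [Finset.univ_unique, Finset.sum_singleton, ContinuousLinearMap.id_apply, M_delta,
        smul_mul_assoc, mul_smul_comm, delta_mul_delta, map_smul, smul_smul]
      rw [← Finset.sum_smul, D.ph_mul' i x y]) f' f
  simpa using h

/-- The constant of the systems. -/
noncomputable def CC : ℝ := 1 + ∑ j, ‖D.ph j‖ + ∑ j, ‖D.dl j‖ + ∑ j, ‖D.dr j‖
  + ∑ i, ∑ j, ‖D.b i j‖ + ∑ i, ∑ j, ‖D.b' i j‖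

lemma CC_ge : 1 ≤ D.CC ∧ ∑ j, ‖D.ph j‖ ≤ D.CC ∧ ∑ j, ‖D.dl j‖ ≤ D.CC ∧ ∑ j, ‖D.dr j‖ ≤ D.CC ∧
    ∑ i, ∑ j, ‖D.b i j‖ ≤ D.CC ∧ ∑ i, ∑ j, ‖D.b' i j‖ ≤ D.CC := by
  have h1 : 0 ≤ ∑ j, ‖D.ph j‖ := Finset.sum_nonneg fun _ _ => norm_nonneg _
  have h2 : 0 ≤ ∑ j, ‖D.dl j‖ := Finset.sum_nonneg fun _ _ => norm_nonneg _
  have h3 : 0 ≤ ∑ j, ‖D.dr j‖ := Finset.sum_nonneg fun _ _ => norm_nonneg _
  have h4 : 0 ≤ ∑ i, ∑ j, ‖D.b i j‖ :=
    Finset.sum_nonneg fun _ _ => Finset.sum_nonneg fun _ _ => norm_nonneg _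
  have h5 : 0 ≤ ∑ i, ∑ j, ‖D.b' i j‖ :=
    Finset.sum_nonneg fun _ _ => Finset.sum_nonneg fun _ _ => norm_nonneg _
  unfold CC
  refine ⟨?_, ?_, ?_, ?_, ?_, ?_⟩ <;> linarith

variable [Nonempty ι]

theorem lsys (hg : Submonoid.closure (Set.range g) = ⊤) : LSys (D.uu g) (D.Nl g) D.CC where
  one_le := D.CC_ge.1
  bdd := by
    intro k x
    rw [Nl_apply]
    have h : ∀ j, ‖mb g k * M (D.ph j) x‖ ≤ ‖D.ph j‖ * ‖x‖ := by
      intro j
      refine (norm_mul_le _ _).trans ?_
      have h1 := norm_mb_le g k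
      have h2 := norm_M_le (D.ph j) x
      calc ‖mb g k‖ * ‖M (D.ph j) x‖ ≤ 1 * (‖D.ph j‖ * ‖x‖) := by gcongr
        _ = _ := one_mul _
    refine (Finset.sum_le_sum fun j _ => h j).trans ?_
    rw [← Finset.sum_mul]
    exact mul_le_mul_of_nonneg_right D.CC_ge.2.1 (norm_nonneg _)
  h1 := by
    intro n x
    rw [uu, D.L1, Nl_apply, Finset.mul_sum]
    refine (norm_sum_le _ _).trans (Finset.sum_le_sum fun j _ => ?_)
    refine (norm_M_le _ _).trans (mul_le_mul_of_nonneg_right ?_ (norm_nonneg _))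
    refine le_trans ?_ D.CC_ge.2.2.1
    exact Finset.single_le_sum (f := fun j => ‖D.dl j‖) (fun _ _ => norm_nonneg _)
      (Finset.mem_univ j)
  h2 := by
    intro k x y
    rw [Nl_apply, Nl_apply]
    have h : ∀ i, ‖mb g k * M (D.ph i) (x * y)‖
        ≤ (∑ j, ‖D.b i j‖) * ((∑ j, ‖mb g k * M (D.ph j) x‖) * ‖y‖) := by
      intro i
      have h0 : ‖mb g k * M (D.ph i) (x * y)‖
          ≤ ∑ j, ‖mb g k * M (D.ph j) x‖ * ((∑ j, ‖D.b i j‖) * ‖y‖) := by
        rw [D.L2, Finset.mul_sum]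
        refine (norm_sum_le _ _).trans (Finset.sum_le_sum fun j _ => ?_)
        rw [← mul_assoc]
        refine (norm_mul_le _ _).trans ?_
        have h1 := norm_M_le (D.b i j) y
        have h2 : ‖D.b i j‖ ≤ ∑ j, ‖D.b i j‖ :=
          Finset.single_le_sum (f := fun j => ‖D.b i j‖) (fun _ _ => norm_nonneg _)
            (Finset.mem_univ j)
        exact mul_le_mul_of_nonneg_left
          (h1.trans (mul_le_mul_of_nonneg_right h2 (norm_nonneg _))) (norm_nonneg _)
      refine h0.trans (le_of_eq ?_)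
      rw [← Finset.sum_mul]
      ring
    refine (Finset.sum_le_sum fun i _ => h i).trans ?_
    rw [← Finset.sum_mul, ← mul_assoc]
    refine mul_le_mul_of_nonneg_right (mul_le_mul_of_nonneg_right D.CC_ge.2.2.2.2.1 ?_)
      (norm_nonneg _)
    exact Finset.sum_nonneg fun _ _ => norm_nonneg _
  h3 := by
    intro ε hε
    have hpos : 0 < ε / (Fintype.card κ + 1) := by positivity
    have h : ∀ j, ∀ᶠ n in atTop, ∀ᶠ k in atTop,
        ‖Tb (stL g) k (D.lam j 1 • 1 - M (D.ph j * D.kap) (mu (stL g) n))‖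
          ≤ ε / (Fintype.card κ + 1) := by
      intro j
      obtain ⟨η, hη⟩ := (D.mean_kap g hg j).2
      exact W3 (stL g) (D.ph j * D.kap) η (D.lam j 1) hη _ hpos
    filter_upwards [Filter.eventually_all.mpr h] with n hn
    filter_upwards [Filter.eventually_all.mpr hn] with k hk
    rw [Nl_apply]
    have h1 : ∀ j, ‖mb g k * M (D.ph j) (1 - D.uu g n)‖ ≤ ε / (Fintype.card κ + 1) := by
      intro j
      have h2 := hk j
      rw [Tb_stL, mu_stL, M_mul] at h2
      rw [map_sub, one_def, M_delta, uu]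
      exact h2
    refine (Finset.sum_le_sum fun j _ => h1 j).trans ?_
    rw [Finset.sum_const, Finset.card_univ, nsmul_eq_mul]
    have h3 : (Fintype.card κ : ℝ) * (ε / (Fintype.card κ + 1))
        = ε * (Fintype.card κ / (Fintype.card κ + 1)) := by ring
    rw [h3]
    have h4 : (Fintype.card κ : ℝ) / (Fintype.card κ + 1) ≤ 1 := by
      rw [div_le_one (by positivity)]
      linarith
    nlinarith

theorem rsys (hg : Submonoid.closure (Set.range g) = ⊤) : RSys (D.uu g) (D.Nr g) D.CC where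
  one_le := D.CC_ge.1
  bdd := by
    intro k x
    rw [Nr_apply]
    have h : ∀ j, ‖M (D.ph j) x * mb g k‖ ≤ ‖D.ph j‖ * ‖x‖ := by
      intro j
      refine (norm_mul_le _ _).trans ?_
      have h1 := norm_mb_le g k
      have h2 := norm_M_le (D.ph j) x
      calc ‖M (D.ph j) x‖ * ‖mb g k‖ ≤ (‖D.ph j‖ * ‖x‖) * 1 := by gcongr
        _ = _ := mul_one _
    refine (Finset.sum_le_sum fun j _ => h j).trans ?_
    rw [← Finset.sum_mul]
    exact mul_le_mul_of_nonneg_right D.CC_ge.2.1 (norm_nonneg _)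
  h1 := by
    intro n x
    rw [uu, D.R1, Nr_apply, Finset.mul_sum]
    refine (norm_sum_le _ _).trans (Finset.sum_le_sum fun j _ => ?_)
    refine (norm_M_le _ _).trans (mul_le_mul_of_nonneg_right ?_ (norm_nonneg _))
    refine le_trans ?_ D.CC_ge.2.2.2.1
    exact Finset.single_le_sum (f := fun j => ‖D.dr j‖) (fun _ _ => norm_nonneg _)
      (Finset.mem_univ j)
  h2 := by
    intro k x y
    rw [Nr_apply, Nr_apply]
    have h : ∀ i, ‖M (D.ph i) (y * x) * mb g k‖
        ≤ (∑ j, ‖D.b' i j‖) * ((∑ j, ‖M (D.ph j) x * mb g k‖) * ‖y‖) := by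
      intro i
      have h0 : ‖M (D.ph i) (y * x) * mb g k‖
          ≤ ∑ j, ((∑ j, ‖D.b' i j‖) * ‖y‖) * ‖M (D.ph j) x * mb g k‖ := by
        rw [D.R2, Finset.sum_mul]
        refine (norm_sum_le _ _).trans (Finset.sum_le_sum fun j _ => ?_)
        rw [mul_assoc]
        refine (norm_mul_le _ _).trans ?_
        have h1 := norm_M_le (D.b' i j) y
        have h2 : ‖D.b' i j‖ ≤ ∑ j, ‖D.b' i j‖ :=
          Finset.single_le_sum (f := fun j => ‖D.b' i j‖) (fun _ _ => norm_nonneg _)
            (Finset.mem_univ j)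
        exact mul_le_mul_of_nonneg_right
          (h1.trans (mul_le_mul_of_nonneg_right h2 (norm_nonneg _))) (norm_nonneg _)
      refine h0.trans (le_of_eq ?_)
      rw [← Finset.mul_sum]
      ring
    refine (Finset.sum_le_sum fun i _ => h i).trans ?_
    rw [← Finset.sum_mul, ← mul_assoc]
    refine mul_le_mul_of_nonneg_right (mul_le_mul_of_nonneg_right D.CC_ge.2.2.2.2.2 ?_)
      (norm_nonneg _)
    exact Finset.sum_nonneg fun _ _ => norm_nonneg _
  h3 := by
    intro ε hε
    have hpos : 0 < ε / (Fintype.card κ + 1) := by positivity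
    have h : ∀ j, ∀ᶠ n in atTop, ∀ᶠ k in atTop,
        ‖Tb (stR g) k (D.lam j 1 • 1 - M (D.ph j * D.kap) (mu (stR g) n))‖
          ≤ ε / (Fintype.card κ + 1) := by
      intro j
      obtain ⟨η, hη⟩ := (D.mean_kap g hg j).1
      exact W3 (stR g) (D.ph j * D.kap) η (D.lam j 1) hη _ hpos
    filter_upwards [Filter.eventually_all.mpr h] with n hn
    filter_upwards [Filter.eventually_all.mpr hn] with k hk
    rw [Nr_apply]
    have h1 : ∀ j, ‖M (D.ph j) (1 - D.uu g n) * mb g k‖ ≤ ε / (Fintype.card κ + 1) := by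
      intro j
      have h2 := hk j
      rw [Tb_stR, mu_stR, M_mul] at h2
      rw [map_sub, one_def, M_delta, uu]
      exact h2
    refine (Finset.sum_le_sum fun j _ => h1 j).trans ?_
    rw [Finset.sum_const, Finset.card_univ, nsmul_eq_mul]
    have h3 : (Fintype.card κ : ℝ) * (ε / (Fintype.card κ + 1))
        = ε * (Fintype.card κ / (Fintype.card κ + 1)) := by ring
    rw [h3]
    have h4 : (Fintype.card κ : ℝ) / (Fintype.card κ + 1) ≤ 1 := by
      rw [div_le_one (by positivity)]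
      linarith
    nlinarith

lemma aug_b (i j : κ) (f : Al G) : aug (M (D.b i j) f) = D.lam i (D.a j * f) :=
  aug_M_bf _ f

lemma aug_ph (i : κ) (f : Al G) : aug (M (D.ph i) f) = D.lam i f := aug_M_bf _ f

lemma Jl_le : Jsub (D.Nl g) ≤ I := by
  intro f hf
  rw [D.mem]
  intro i
  have h : ∀ᶠ k in atTop, ‖D.lam i f‖ ≤ D.Nl g k f := by
    filter_upwards [eventually_ne_atTop 0] with k hk
    have h1 : D.lam i f = aug (mb g k * M (D.ph i) f) := by
      rw [aug_mul, aug_mb g k hk, one_mul, aug_ph]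
    rw [h1, Nl_apply]
    refine (norm_aug_le _).trans ?_
    exact Finset.single_le_sum (f := fun j => ‖mb g k * M (D.ph j) f‖) (fun _ _ => norm_nonneg _)
      (Finset.mem_univ i)
  have h2 := ge_of_tendsto (mem_Jsub.mp hf) h
  exact norm_le_zero_iff.mp h2

lemma Jr_le : Jsub (D.Nr g) ≤ I := by
  intro f hf
  rw [D.mem]
  intro i
  have h : ∀ᶠ k in atTop, ‖D.lam i f‖ ≤ D.Nr g k f := by
    filter_upwards [eventually_ne_atTop 0] with k hk
    have h1 : D.lam i f = aug (M (D.ph i) f * mb g k) := by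
      rw [aug_mul, aug_mb g k hk, mul_one, aug_ph]
    rw [h1, Nr_apply]
    refine (norm_aug_le _).trans ?_
    exact Finset.single_le_sum (f := fun j => ‖M (D.ph j) f * mb g k‖) (fun _ _ => norm_nonneg _)
      (Finset.mem_univ i)
  have h2 := ge_of_tendsto (mem_Jsub.mp hf) h
  exact norm_le_zero_iff.mp h2

lemma lr (hg : Submonoid.closure (Set.range g) = ⊤) (f : Al G) (hf : f ∈ I) :
    ∀ ε > 0, ∀ᶠ n in atTop, ∀ᶠ k in atTop, D.Nr g k (D.uu g n * f) ≤ ε := by
  intro ε hε
  have hpos : 0 < ε / ((Fintype.card κ : ℝ) * Fintype.card κ + 1) := by positivity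
  have h : ∀ p : κ × κ, ∀ᶠ n in atTop, ∀ᶠ k in atTop,
      ‖M (D.ph p.2 * D.kap) (mb g n) * M (D.b p.1 p.2) f * mb g k‖
        ≤ ε / ((Fintype.card κ : ℝ) * Fintype.card κ + 1) := by
    intro p
    refine LR1 g hg (D.ph p.2 * D.kap) (M (D.b p.1 p.2) f) ?_ _ hpos
    rw [aug_b]
    exact (D.mem _).mp (D.hl _ _ hf) p.1
  filter_upwards [Filter.eventually_all.mpr h] with n hn
  filter_upwards [Filter.eventually_all.mpr hn] with k hk
  rw [Nr_apply]
  have h1 : ∀ i, ‖M (D.ph i) (D.uu g n * f) * mb g k‖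
      ≤ ∑ _j : κ, ε / ((Fintype.card κ : ℝ) * Fintype.card κ + 1) := by
    intro i
    rw [D.L2, Finset.sum_mul]
    refine (norm_sum_le _ _).trans (Finset.sum_le_sum fun j _ => ?_)
    have h2 := hk (i, j)
    rw [M_mul] at h2
    exact h2
  refine (Finset.sum_le_sum fun i _ => h1 i).trans ?_
  simp only [Finset.sum_const, Finset.card_univ, nsmul_eq_mul]
  have h3 : (Fintype.card κ : ℝ) * (Fintype.card κ
        * (ε / ((Fintype.card κ : ℝ) * Fintype.card κ + 1)))
      = ε * ((Fintype.card κ : ℝ) * Fintype.card κ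
        / ((Fintype.card κ : ℝ) * Fintype.card κ + 1)) := by ring
  rw [h3]
  have h4 : ((Fintype.card κ : ℝ) * Fintype.card κ
        / ((Fintype.card κ : ℝ) * Fintype.card κ + 1)) ≤ 1 := by
    rw [div_le_one (by positivity)]
    linarith
  nlinarith

include D in
/-- Every element of a closed cofinite ideal is the sum of two products of elements of it. -/
theorem factor (hg : Submonoid.closure (Set.range g) = ⊤) (hI : IsClosed (I : Set (Al G)))
    (f : Al G) (hf : f ∈ I) :
    ∃ x₁ ∈ I, ∃ y₁ ∈ I, ∃ x₂ ∈ I, ∃ y₂ ∈ I, f = x₁ * y₁ + x₂ * y₂ :=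
  assemble I hI D.hl D.hr (D.uu g) (D.Nl g) (D.Nr g) D.CC (D.lsys g hg) (D.rsys g hg)
    (D.Jl_le g) (D.Jr_le g) (fun f hf => D.lr g hg f hf) f hf

end Dat

end Main

end Pool.Agent.J4H52.IQ
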