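import Pool.Agent.J4H52.IQ.Walk3

/-!
# Finite-dimensional translation invariant spaces of bounded functions
-/

open Filter Topology

open scoped BoundedContinuousFunction

namespace Pool.Agent.J4H52.IQ

open Al

section Mean

/-- Strict convexity for averages of complex numbers. -/
lemma avg_eq {ι : Type} [Fintype ι] [Nonempty ι] (z : ι → ℂ) (w : ℂ)
    (h : ((Fintype.card ι : ℂ)⁻¹) * ∑ i, z i = w) (hz : ∀ i, ‖z i‖ ≤ ‖w‖) (i : ι) : z i = w := by
  have hcc : (Fintype.card ι : ℂ) ≠ 0 := by exact_mod_cast Fintype.card_ne_zero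
  have h1 : ∑ i, z i = Fintype.card ι * w := by
    rw [← h, ← mul_assoc, mul_inv_cancel₀ hcc, one_mul]
  have h2 : ∑ i, ‖z i - w‖ ^ 2 ≤ 0 := by
    have h3 : ∀ i, ‖z i - w‖ ^ 2
        = ‖z i‖ ^ 2 + ‖w‖ ^ 2 - 2 * (z i * starRingEnd ℂ w).re := by
      intro i
      rw [← Complex.normSq_eq_norm_sq, ← Complex.normSq_eq_norm_sq, ← Complex.normSq_eq_norm_sq,
        Complex.normSq_sub]
    simp_rw [h3]
    rw [Finset.sum_sub_distrib, Finset.sum_add_distrib, ← Finset.mul_sum, ← Complex.re_sum,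
      ← Finset.sum_mul, h1]
    have h4 : ((Fintype.card ι : ℂ) * w * starRingEnd ℂ w).re = Fintype.card ι * ‖w‖ ^ 2 := by
      rw [mul_assoc, Complex.mul_conj, Complex.normSq_eq_norm_sq]
      rw [← Complex.ofReal_natCast, ← Complex.ofReal_mul, Complex.ofReal_re]
    rw [h4]
    have h5 : ∑ i, ‖z i‖ ^ 2 ≤ Fintype.card ι * ‖w‖ ^ 2 := by
      refine (Finset.sum_le_sum (fun i _ => ?_) : _ ≤ ∑ _i : ι, ‖w‖ ^ 2).trans ?_
      · have := hz i
        gcongr
      · simp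
    simp only [Finset.sum_const, Finset.card_univ, nsmul_eq_mul]
    linarith
  have h6 : ∑ i, ‖z i - w‖ ^ 2 = 0 := le_antisymm h2 (Finset.sum_nonneg fun i _ => by positivity)
  have h7 := (Finset.sum_eq_zero_iff_of_nonneg (fun i _ => by positivity)).mp h6 i
    (Finset.mem_univ i)
  have h8 : ‖z i - w‖ = 0 := by
    exact pow_eq_zero_iff (two_ne_zero) |>.mp h7
  exact sub_eq_zero.mp (norm_eq_zero.mp h8)

variable {G : Type*} [DecidableEq G] [Group G] [TopologicalSpace G] [DiscreteTopology G]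
  {ι : Type} [Fintype ι] [Nonempty ι]

lemma Pv_cmp (st : ι → G → G) (φ : G →ᵇ ℂ) (s : G → G) (hs : ∀ i y, st i (s y) = s (st i y)) :
    Pv st (cmp φ s) = cmp (Pv st φ) s := by
  ext x
  rw [cmp_apply, Pv_apply, Pv_apply]
  simp only [cmp_apply, hs]

lemma Pv_add (st : ι → G → G) (φ ψ : G →ᵇ ℂ) : Pv st (φ + ψ) = Pv st φ + Pv st ψ := by
  ext x
  simp only [Pv_apply, BoundedContinuousFunction.add_apply, Finset.sum_add_distrib, mul_add]

lemma Pv_smul (st : ι → G → G) (c : ℂ) (φ : G →ᵇ ℂ) : Pv st (c • φ) = c • Pv st φ := by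
  ext x
  simp only [Pv_apply, BoundedContinuousFunction.coe_smul, smul_eq_mul, ← Finset.mul_sum]
  ring

lemma Pv_sub (st : ι → G → G) (φ ψ : G →ᵇ ℂ) : Pv st (φ - ψ) = Pv st φ - Pv st ψ := by
  ext x
  simp only [Pv_apply, BoundedContinuousFunction.sub_apply, Finset.sum_sub_distrib, mul_sub]

lemma Pv_const (st : ι → G → G) (c : ℂ) :
    Pv st (BoundedContinuousFunction.const G c) = BoundedContinuousFunction.const G c := by
  have hcc : (Fintype.card ι : ℂ) ≠ 0 := by exact_mod_cast Fintype.card_ne_zero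
  ext x
  rw [Pv_apply]
  simp only [BoundedContinuousFunction.const_apply, Finset.sum_const, Finset.card_univ,
    nsmul_eq_mul]
  rw [← mul_assoc, inv_mul_cancel₀ hcc, one_mul]

/-- Bounded harmonic functions in a finite-dimensional invariant space are constant. -/
theorem harm_const (st : ι → G → G) (tr tri : G → G → G) (h1 : ∀ x, tr x 1 = x)
    (h2 : ∀ x y, tr x (tri x y) = y) (hc : ∀ i x y, st i (tr x y) = tr x (st i y))
    (hreach : ∀ P : G → Prop, P 1 → (∀ y i, P y → P (st i y)) → ∀ x, P x)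
    (F : Submodule ℂ (G →ᵇ ℂ)) [FiniteDimensional ℂ F]
    (hF : ∀ x, ∀ φ ∈ F, cmp φ (tr x) ∈ F) (φ : G →ᵇ ℂ) (hφ : φ ∈ F) (hh : Pv st φ = φ) :
    ∃ c : ℂ, ∀ x, φ x = c := by
  have hex : ∀ n : ℕ, ∃ x, ‖φ‖ - 1 / ((n : ℝ) + 1) ≤ ‖φ x‖ := by
    intro n
    by_contra hcon
    push Not at hcon
    have h3 : (0 : ℝ) < 1 / ((n : ℝ) + 1) := by positivity
    have h4 : 0 ≤ ‖φ‖ - 1 / ((n : ℝ) + 1) := (norm_nonneg _).trans (hcon 1).le
    have h5 := (BoundedContinuousFunction.norm_le h4).mpr fun x => (hcon x).le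
    linarith
  choose xs hxs using hex
  set ψ : ℕ → F := fun n => ⟨cmp φ (tr (xs n)), hF _ φ hφ⟩ with hψ
  have : ProperSpace F := FiniteDimensional.proper ℂ F
  have hb : ∀ n, ψ n ∈ Metric.closedBall (0 : F) ‖φ‖ := by
    intro n
    rw [mem_closedBall_zero_iff]
    exact norm_cmp_le φ _
  obtain ⟨ψ0, -, s, hs, hlim⟩ := tendsto_subseq_of_bounded Metric.isBounded_closedBall hb
  have hlim' : Tendsto (fun n => ((ψ (s n) : F) : G →ᵇ ℂ)) atTop (𝓝 (ψ0 : G →ᵇ ℂ)) :=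
    (continuous_subtype_val.tendsto ψ0).comp hlim
  have hpt : ∀ x, Tendsto (fun n => φ (tr (xs (s n)) x)) atTop (𝓝 ((ψ0 : G →ᵇ ℂ) x)) := by
    intro x
    rw [tendsto_iff_norm_sub_tendsto_zero] at hlim' ⊢
    refine squeeze_zero (fun n => norm_nonneg _) (fun n => ?_) hlim'
    exact ((((ψ (s n) : F) : G →ᵇ ℂ) - (ψ0 : G →ᵇ ℂ)).norm_coe_le_norm x)
  set m : ℝ := ‖φ‖ with hm
  have hψ1 : ‖(ψ0 : G →ᵇ ℂ) 1‖ = m := by
    have h3 : Tendsto (fun n => ‖φ (xs (s n))‖) atTop (𝓝 ‖(ψ0 : G →ᵇ ℂ) 1‖) := by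
      have := (hpt 1).norm
      simpa only [h1] using this
    have h4 : Tendsto (fun n => ‖φ (xs (s n))‖) atTop (𝓝 m) := by
      have h5 : Tendsto (fun n : ℕ => m - 1 / (((s n : ℕ) : ℝ) + 1)) atTop (𝓝 (m - 0)) :=
        tendsto_const_nhds.sub (tendsto_one_div_add_atTop_nhds_zero_nat.comp hs.tendsto_atTop)
      rw [sub_zero] at h5
      exact tendsto_of_tendsto_of_tendsto_of_le_of_le h5 tendsto_const_nhds
        (fun n => hxs (s n)) (fun n => φ.norm_coe_le_norm _)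
    exact tendsto_nhds_unique h3 h4
  have hψm : ∀ x, ‖(ψ0 : G →ᵇ ℂ) x‖ ≤ m := fun x =>
    le_of_tendsto (hpt x).norm (Eventually.of_forall fun n => φ.norm_coe_le_norm _)
  have hψh : ∀ x, ((Fintype.card ι : ℂ)⁻¹) * ∑ i, (ψ0 : G →ᵇ ℂ) (st i x) = (ψ0 : G →ᵇ ℂ) x := by
    intro x
    have h3 : ∀ n, ((Fintype.card ι : ℂ)⁻¹) * ∑ i, φ (tr (xs (s n)) (st i x))
        = φ (tr (xs (s n)) x) := by
      intro n
      have h4 := congrArg (fun f : G →ᵇ ℂ => f (tr (xs (s n)) x)) hh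
      simp only [Pv_apply, hc] at h4
      exact h4
    have h5 : Tendsto (fun n => ((Fintype.card ι : ℂ)⁻¹) * ∑ i, φ (tr (xs (s n)) (st i x))) atTop
        (𝓝 (((Fintype.card ι : ℂ)⁻¹) * ∑ i, (ψ0 : G →ᵇ ℂ) (st i x))) :=
      (tendsto_finsetSum _ fun i _ => hpt (st i x)).const_mul _
    simp_rw [h3] at h5
    exact tendsto_nhds_unique h5 (hpt x)
  have hconst : ∀ x, (ψ0 : G →ᵇ ℂ) x = (ψ0 : G →ᵇ ℂ) 1 := by
    refine hreach _ rfl ?_
    intro y i hy
    have h3 := avg_eq (fun i => (ψ0 : G →ᵇ ℂ) (st i y)) ((ψ0 : G →ᵇ ℂ) y) (hψh y) (by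
      intro i
      rw [hy, hψ1]
      exact hψm _) i
    exact h3.trans hy
  refine ⟨(ψ0 : G →ᵇ ℂ) 1, fun y => ?_⟩
  have h6 : Tendsto (fun n => ‖((ψ (s n) : F) : G →ᵇ ℂ) - (ψ0 : G →ᵇ ℂ)‖) atTop (𝓝 0) := by
    have := (hlim'.sub_const (ψ0 : G →ᵇ ℂ)).norm
    rwa [sub_self, norm_zero] at this
  have h7 : ∀ n, ‖φ y - (ψ0 : G →ᵇ ℂ) 1‖ ≤ ‖((ψ (s n) : F) : G →ᵇ ℂ) - (ψ0 : G →ᵇ ℂ)‖ := by
    intro n
    have h8 := (((ψ (s n) : F) : G →ᵇ ℂ) - (ψ0 : G →ᵇ ℂ)).norm_coe_le_norm (tri (xs (s n)) y)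
    rw [BoundedContinuousFunction.sub_apply, hconst] at h8
    have h9 : ((ψ (s n) : F) : G →ᵇ ℂ) (tri (xs (s n)) y) = φ y := by
      rw [hψ]
      simp only [cmp_apply, h2]
    rwa [h9] at h8
  have h10 : ‖φ y - (ψ0 : G →ᵇ ℂ) 1‖ ≤ 0 := ge_of_tendsto h6 (Eventually.of_forall h7)
  exact sub_eq_zero.mp (norm_le_zero_iff.mp h10)

lemma Pv_mem (st : ι → G → G) (F : Submodule ℂ (G →ᵇ ℂ)) (hF : ∀ i, ∀ φ ∈ F, cmp φ (st i) ∈ F)
    (φ : G →ᵇ ℂ) (hφ : φ ∈ F) : Pv st φ ∈ F :=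
  F.smul_mem _ (F.sum_mem fun i _ => hF i φ hφ)

/-- Decomposition into a harmonic part and a coboundary. -/
theorem decomp (st : ι → G → G) (F : Submodule ℂ (G →ᵇ ℂ)) [FiniteDimensional ℂ F]
    (hF : ∀ i, ∀ φ ∈ F, cmp φ (st i) ∈ F) (φ : G →ᵇ ℂ) (hφ : φ ∈ F) :
    ∃ φ0 ∈ F, ∃ η ∈ F, Pv st φ0 = φ0 ∧ φ = φ0 + (η - Pv st η) := by
  let D : F →ₗ[ℂ] F :=
    { toFun := fun φ => ⟨(φ : G →ᵇ ℂ) - Pv st φ, F.sub_mem φ.2 (Pv_mem st F hF _ φ.2)⟩
      map_add' := by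
        intro φ ψ
        apply Subtype.ext
        simp only [Submodule.coe_add, Pv_add]
        abel
      map_smul' := by
        intro c φ
        apply Subtype.ext
        simp only [Submodule.coe_smul, Pv_smul, RingHom.id_apply, smul_sub] }
  have hD : ∀ φ : F, ((D φ : F) : G →ᵇ ℂ) = (φ : G →ᵇ ℂ) - Pv st φ := fun _ => rfl
  have hdisj : Disjoint (LinearMap.range D) (LinearMap.ker D) := by
    rw [Submodule.disjoint_def]
    rintro x ⟨y, rfl⟩ hx
    set x : F := D y with hxdef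
    have hx1 : Pv st (x : G →ᵇ ℂ) = x := by
      have h3 := congrArg Subtype.val (LinearMap.mem_ker.mp hx)
      rw [hD] at h3
      exact (sub_eq_zero.mp h3).symm
    have hx2 : Pv st (y : G →ᵇ ℂ) = (y : G →ᵇ ℂ) - x := by
      rw [hxdef, hD]
      abel
    have hn : ∀ n : ℕ, ‖(y : G →ᵇ ℂ) - (n : ℂ) • (x : G →ᵇ ℂ)‖ ≤ ‖(y : G →ᵇ ℂ)‖ := by
      intro n
      induction n with
      | zero => simp
      | succ n ih =>
        have h3 : (y : G →ᵇ ℂ) - ((n + 1 : ℕ) : ℂ) • (x : G →ᵇ ℂ)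
            = Pv st ((y : G →ᵇ ℂ) - (n : ℂ) • (x : G →ᵇ ℂ)) := by
          rw [Pv_sub, Pv_smul, hx1, hx2]
          push_cast
          rw [add_smul, one_smul]
          abel
        rw [h3]
        exact (norm_Pv_le st _).trans ih
    have hle : ∀ n : ℕ, (n : ℝ) * ‖(x : G →ᵇ ℂ)‖ ≤ 2 * ‖(y : G →ᵇ ℂ)‖ := by
      intro n
      have h3 : (n : ℂ) • (x : G →ᵇ ℂ)
          = (y : G →ᵇ ℂ) - ((y : G →ᵇ ℂ) - (n : ℂ) • (x : G →ᵇ ℂ)) := by abel
      have h4 : ‖(n : ℂ) • (x : G →ᵇ ℂ)‖ = (n : ℝ) * ‖(x : G →ᵇ ℂ)‖ := by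
        rw [norm_smul, Complex.norm_natCast]
      rw [← h4, h3]
      refine (norm_sub_le _ _).trans ?_
      linarith [hn n]
    have h0 : ‖(x : G →ᵇ ℂ)‖ = 0 := by
      by_contra hne
      have hpos : 0 < ‖(x : G →ᵇ ℂ)‖ := lt_of_le_of_ne (norm_nonneg _) (Ne.symm hne)
      obtain ⟨n, hn1⟩ := exists_nat_gt (2 * ‖(y : G →ᵇ ℂ)‖ / ‖(x : G →ᵇ ℂ)‖)
      rw [div_lt_iff₀ hpos] at hn1
      exact absurd (hle n) (not_le.mpr hn1)
    apply Subtype.ext
    exact norm_eq_zero.mp h0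
  have htop : LinearMap.range D ⊔ LinearMap.ker D = ⊤ :=
    Submodule.eq_top_of_disjoint _ _ (LinearMap.finrank_range_add_finrank_ker D).ge hdisj
  have hmem : (⟨φ, hφ⟩ : F) ∈ LinearMap.range D ⊔ LinearMap.ker D := by rw [htop]; trivial
  obtain ⟨a, ⟨η, rfl⟩, b, hb, hab⟩ := Submodule.mem_sup.mp hmem
  refine ⟨b, b.2, η, η.2, ?_, ?_⟩
  · have h3 := congrArg Subtype.val (LinearMap.mem_ker.mp hb)
    rw [hD] at h3
    exact (sub_eq_zero.mp h3).symm
  · have h3 := congrArg Subtype.val hab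
    rw [Submodule.coe_add, hD] at h3
    simp only at h3
    rw [← h3]
    abel

variable (g : ι → G)

/-- The mean of a bounded function, with respect to the right walk. -/
def IsMean (φ : G →ᵇ ℂ) (c : ℂ) : Prop :=
  ∃ η : G →ᵇ ℂ, φ = BoundedContinuousFunction.const G c + (η - Pv (stR g) η)

lemma IsMean.unique {φ : G →ᵇ ℂ} {c c' : ℂ} (h : IsMean g φ c) (h' : IsMean g φ c') : c = c' := by
  obtain ⟨η, hη⟩ := h
  obtain ⟨η', hη'⟩ := h'
  set ζ : G →ᵇ ℂ := η - η' with hζ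
  set d : ℂ := c - c' with hd
  have h1 : Pv (stR g) ζ = ζ + BoundedContinuousFunction.const G d := by
    have h2 : BoundedContinuousFunction.const G c + (η - Pv (stR g) η)
        = BoundedContinuousFunction.const G c' + (η' - Pv (stR g) η') := by rw [← hη, ← hη']
    ext x
    have h3 := congrArg (fun f : G →ᵇ ℂ => f x) h2
    rw [hζ, Pv_sub]
    simp only [BoundedContinuousFunction.add_apply, BoundedContinuousFunction.sub_apply,
      BoundedContinuousFunction.const_apply] at h3 ⊢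
    rw [hd]
    linear_combination -h3
  have hn : ∀ n : ℕ, ‖ζ + BoundedContinuousFunction.const G ((n : ℂ) * d)‖ ≤ ‖ζ‖ := by
    intro n
    induction n with
    | zero =>
      have : BoundedContinuousFunction.const G (((0 : ℕ) : ℂ) * d) = 0 := by
        ext x
        simp
      rw [this, add_zero]
    | succ n ih =>
      have h3 : ζ + BoundedContinuousFunction.const G (((n + 1 : ℕ) : ℂ) * d)
          = Pv (stR g) (ζ + BoundedContinuousFunction.const G ((n : ℂ) * d)) := by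
        rw [Pv_add, Pv_const, h1]
        ext x
        simp only [BoundedContinuousFunction.add_apply, BoundedContinuousFunction.const_apply]
        push_cast
        ring
      rw [h3]
      exact (norm_Pv_le (stR g) _).trans ih
  have hle : ∀ n : ℕ, (n : ℝ) * ‖d‖ ≤ 2 * ‖ζ‖ := by
    intro n
    have h3 := (ζ + BoundedContinuousFunction.const G ((n : ℂ) * d)).norm_coe_le_norm 1
    have h4 := h3.trans (hn n)
    have h5 := ζ.norm_coe_le_norm 1
    rw [BoundedContinuousFunction.add_apply, BoundedContinuousFunction.const_apply] at h4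
    have h6 : (n : ℂ) * d = (ζ 1 + (n : ℂ) * d) - ζ 1 := by ring
    have h7 : ‖(n : ℂ) * d‖ = (n : ℝ) * ‖d‖ := by rw [norm_mul, Complex.norm_natCast]
    rw [← h7, h6]
    refine (norm_sub_le _ _).trans ?_
    linarith
  have h0 : ‖d‖ = 0 := by
    by_contra hne
    have hpos : 0 < ‖d‖ := lt_of_le_of_ne (norm_nonneg _) (Ne.symm hne)
    obtain ⟨n, hn1⟩ := exists_nat_gt (2 * ‖ζ‖ / ‖d‖)
    rw [div_lt_iff₀ hpos] at hn1
    exact absurd (hle n) (not_le.mpr hn1)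
  exact sub_eq_zero.mp (norm_eq_zero.mp h0)

lemma isMean_const (c : ℂ) : IsMean g (BoundedContinuousFunction.const G c) c := by
  refine ⟨0, ?_⟩
  have h := Pv_smul (stR g) 0 (0 : G →ᵇ ℂ)
  rw [zero_smul, zero_smul] at h
  rw [h, sub_zero, add_zero]

lemma IsMean.sum {κ : Type*} (s : Finset κ) (a : κ → ℂ) (φ : κ → G →ᵇ ℂ) (c : κ → ℂ)
    (h : ∀ k, IsMean g (φ k) (c k)) : IsMean g (∑ k ∈ s, a k • φ k) (∑ k ∈ s, a k * c k) := by
  classical
  choose η hη using h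
  refine ⟨∑ k ∈ s, a k • η k, ?_⟩
  have hP : Pv (stR g) (∑ k ∈ s, a k • η k) = ∑ k ∈ s, a k • Pv (stR g) (η k) := by
    induction s using Finset.induction_on with
    | empty =>
      have h := Pv_smul (stR g) 0 (0 : G →ᵇ ℂ)
      rw [zero_smul, zero_smul] at h
      simpa using h
    | insert k s hk ih => rw [Finset.sum_insert hk, Finset.sum_insert hk, Pv_add, Pv_smul, ih]
  rw [hP, ← Finset.sum_sub_distrib]
  have hc : BoundedContinuousFunction.const G (∑ k ∈ s, a k * c k)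
      = ∑ k ∈ s, a k • BoundedContinuousFunction.const G (c k) := by
    ext x
    simp [BoundedContinuousFunction.coe_sum]
  rw [hc, ← Finset.sum_add_distrib]
  refine Finset.sum_congr rfl fun k _ => ?_
  rw [← smul_sub, ← smul_add, ← hη]

lemma IsMean.cmp_left {φ : G →ᵇ ℂ} {c : ℂ} (h : IsMean g φ c) (x : G) :
    IsMean g (cmp φ (fun t => x * t)) c := by
  obtain ⟨η, hη⟩ := h
  refine ⟨cmp η (fun t => x * t), ?_⟩
  rw [Pv_cmp (stR g) η (fun t => x * t) (fun i y => by simp [stR, mul_assoc])]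
  ext t
  have := congrArg (fun f : G →ᵇ ℂ => f (x * t)) hη
  simpa using this

lemma reachR (hg : Submonoid.closure (Set.range g) = ⊤) (P : G → Prop) (h1 : P 1)
    (h : ∀ y i, P y → P (stR g i y)) (x : G) : P x := by
  have hx : x ∈ Submonoid.closure (Set.range g) := by rw [hg]; trivial
  induction hx using Submonoid.closure_induction_right with
  | one => exact h1
  | mul_right y hy a ha ih =>
    obtain ⟨i, rfl⟩ := ha
    exact h y i ih

lemma reachL (hg : Submonoid.closure (Set.range g) = ⊤) (P : G → Prop) (h1 : P 1)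
    (h : ∀ y i, P y → P (stL g i y)) (x : G) : P x := by
  have hx : x ∈ Submonoid.closure (Set.range g) := by rw [hg]; trivial
  induction hx using Submonoid.closure_induction_left with
  | one => exact h1
  | mul_left a ha y hy ih =>
    obtain ⟨i, rfl⟩ := ha
    exact h y i ih

/-- The mean, computed by both walks. -/
theorem both (hg : Submonoid.closure (Set.range g) = ⊤) (F : Submodule ℂ (G →ᵇ ℂ))
    [FiniteDimensional ℂ F] (hFl : ∀ x, ∀ φ ∈ F, cmp φ (fun t => x * t) ∈ F)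
    (hFr : ∀ x, ∀ φ ∈ F, cmp φ (fun t => t * x) ∈ F) (φ : G →ᵇ ℂ) (hφ : φ ∈ F) :
    ∃ c : ℂ, (∃ η : G →ᵇ ℂ, φ = BoundedContinuousFunction.const G c + (η - Pv (stR g) η)) ∧
      (∃ η : G →ᵇ ℂ, φ = BoundedContinuousFunction.const G c + (η - Pv (stL g) η)) := by
  obtain ⟨φ0, hφ0, η, hη, hh, hdec⟩ := decomp (stR g) F (fun i φ hφ => hFr (g i) φ hφ) φ hφ
  obtain ⟨c, hc⟩ := harm_const (stR g) (fun x y => x * y) (fun x y => x⁻¹ * y)
    (fun x => mul_one x) (fun x y => by simp) (fun i x y => by simp [stR, mul_assoc])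
    (reachR g hg) F (fun x φ hφ => hFl x φ hφ) φ0 hφ0 hh
  have hφ0' : φ0 = BoundedContinuousFunction.const G c := by
    ext x
    simp [hc]
  obtain ⟨η0, hη0, ζ, hζ, hh', hdec'⟩ := decomp (stL g) F (fun i φ hφ => hFl (g i) φ hφ) η hη
  obtain ⟨c', hc'⟩ := harm_const (stL g) (fun x y => y * x) (fun x y => y * x⁻¹)
    (fun x => one_mul x) (fun x y => by simp) (fun i x y => by simp [stL, mul_assoc])
    (reachL g hg) F (fun x φ hφ => hFr x φ hφ) η0 hη0 hh'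
  have hη0' : η0 = BoundedContinuousFunction.const G c' := by
    ext x
    simp [hc']
  refine ⟨c, ⟨η, by rw [hdec, hφ0']⟩, ⟨ζ - Pv (stR g) ζ, ?_⟩⟩
  have hcomm : Pv (stR g) (Pv (stL g) ζ) = Pv (stL g) (Pv (stR g) ζ) := by
    ext x
    simp only [Pv_apply, stR, stL, Finset.mul_sum, mul_assoc]
    rw [Finset.sum_comm]
  rw [hdec, hφ0', hdec', hη0', Pv_add, Pv_const, Pv_sub, Pv_sub, hcomm]
  abel

end Mean

end Pool.Agent.J4H52.IQ
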