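import Pool.Agent.J4H52.IQ.Cohen

/-!
# One-sided systems of approximate annihilators

`LSys u N C`: a sequence `u n` of elements and a sequence of seminorms `N k` on a Banach algebra
such that `1 - u n` is asymptotically an approximate left identity of the closed right ideal of all
`x` with `N k x → 0`.
-/

open Filter Topology

namespace Pool.Agent.J4H52.IQ

section Sys

variable {A : Type*} [NormedRing A] [NormedAlgebra ℂ A]

/-- A left system. -/
structure LSys (u : ℕ → A) (N : ℕ → Seminorm ℂ A) (C : ℝ) : Prop where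
  one_le : 1 ≤ C
  bdd : ∀ k x, N k x ≤ C * ‖x‖
  h1 : ∀ n x, ‖u n * x‖ ≤ C * N n x
  h2 : ∀ k x y, N k (x * y) ≤ C * N k x * ‖y‖
  h3 : ∀ ε > 0, ∀ᶠ n in atTop, ∀ᶠ k in atTop, N k (1 - u n) ≤ ε

/-- A right system. -/
structure RSys (u : ℕ → A) (N : ℕ → Seminorm ℂ A) (C : ℝ) : Prop where
  one_le : 1 ≤ C
  bdd : ∀ k x, N k x ≤ C * ‖x‖
  h1 : ∀ n x, ‖x * u n‖ ≤ C * N n x
  h2 : ∀ k x y, N k (y * x) ≤ C * N k x * ‖y‖
  h3 : ∀ ε > 0, ∀ᶠ n in atTop, ∀ᶠ k in atTop, N k (1 - u n) ≤ ε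

/-- The elements annihilated in the limit. -/
def Jsub (N : ℕ → Seminorm ℂ A) : Submodule ℂ A where
  carrier := {x | Tendsto (fun k => N k x) atTop (𝓝 0)}
  add_mem' := by
    intro x y hx hy
    have h := Tendsto.add hx hy
    rw [add_zero] at h
    exact squeeze_zero (fun k => apply_nonneg (N k) _) (fun k => map_add_le_add (N k) x y) h
  zero_mem' := by simp
  smul_mem' := by
    intro c x hx
    have h := Tendsto.const_mul (‖c‖) hx
    rw [mul_zero] at h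
    refine h.congr ?_
    intro k
    rw [map_smul_eq_mul]

lemma mem_Jsub {N : ℕ → Seminorm ℂ A} {x : A} :
    x ∈ Jsub N ↔ Tendsto (fun k => N k x) atTop (𝓝 0) := Iff.rfl

lemma Jsub_of_approx {N : ℕ → Seminorm ℂ A} {C : ℝ} (hC : 0 < C) (bdd : ∀ k x, N k x ≤ C * ‖x‖)
    {x : A} (h : ∀ ε > 0, ∃ y, ‖x - y‖ ≤ ε ∧ ∀ᶠ k in atTop, N k y ≤ ε) : x ∈ Jsub N := by
  rw [mem_Jsub, Metric.tendsto_atTop]
  intro ε hε
  obtain ⟨y, hy1, hy2⟩ := h (ε / (2 * (C + 1))) (by positivity)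
  rw [eventually_atTop] at hy2
  obtain ⟨k0, hk0⟩ := hy2
  refine ⟨k0, fun k hk => ?_⟩
  rw [Real.dist_eq, sub_zero, abs_of_nonneg (apply_nonneg (N k) _)]
  have h1 : N k x ≤ N k (x - y) + N k y := by
    have := map_add_le_add (N k) (x - y) y
    rwa [sub_add_cancel] at this
  have h2 : N k (x - y) ≤ C * (ε / (2 * (C + 1))) := (bdd k _).trans (by gcongr)
  have h3 := hk0 k hk
  have h4 : C * (ε / (2 * (C + 1))) + ε / (2 * (C + 1)) = ε / 2 := by
    field_simp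
  linarith

lemma isClosed_Jsub {N : ℕ → Seminorm ℂ A} {C : ℝ} (hC : 0 < C)
    (bdd : ∀ k x, N k x ≤ C * ‖x‖) : IsClosed (Jsub N : Set A) := by
  rw [← isSeqClosed_iff_isClosed]
  intro s x hs hx
  refine Jsub_of_approx hC bdd ?_
  intro ε hε
  have h1 : ∀ᶠ m in atTop, ‖x - s m‖ ≤ ε := by
    have h2 := (hx.const_sub x).norm
    rw [sub_self, norm_zero] at h2
    exact h2.eventually (ge_mem_nhds hε)
  obtain ⟨m, hm⟩ := h1.exists
  refine ⟨s m, hm, ?_⟩
  exact (mem_Jsub.mp (hs m)).eventually (ge_mem_nhds hε)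

variable {u : ℕ → A} {N : ℕ → Seminorm ℂ A} {C : ℝ}

lemma LSys.pos (h : LSys u N C) : 0 < C := lt_of_lt_of_le one_pos h.one_le

lemma LSys.dist_step (h : LSys u N C) (x : A) (η : ℝ) (hη : 0 < η)
    (hx : ∀ᶠ k in atTop, N k x ≤ η) :
    ∃ x', ‖x - x'‖ ≤ C * η ∧ ∀ᶠ k in atTop, N k x' ≤ η / 2 := by
  have hC := h.pos
  obtain ⟨n, hn1, hn2⟩ := ((h.h3 (η / (2 * C * (‖x‖ + 1))) (by positivity)).and hx).exists
  refine ⟨(1 - u n) * x, ?_, ?_⟩
  · have h1 : x - (1 - u n) * x = u n * x := by rw [sub_mul, one_mul]; abel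
    rw [h1]
    exact (h.h1 n x).trans (by gcongr)
  · filter_upwards [hn1] with k hk
    refine (h.h2 k _ _).trans ?_
    have h2 : C * N k (1 - u n) * ‖x‖ ≤ C * (η / (2 * C * (‖x‖ + 1))) * (‖x‖ + 1) := by
      gcongr
      linarith
    have h3 : C * (η / (2 * C * (‖x‖ + 1))) * (‖x‖ + 1) = η / 2 := by
      have : ‖x‖ + 1 ≠ 0 := by positivity
      field_simp
    linarith

lemma LSys.dist_le [CompleteSpace A] (h : LSys u N C) (x : A) (η : ℝ) (hη : 0 < η)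
    (hx : ∀ᶠ k in atTop, N k x ≤ η) : ∃ y ∈ Jsub N, ‖x - y‖ ≤ 2 * C * η := by
  have hC := h.pos
  let St : ℕ → Type _ := fun j => {x : A // ∀ᶠ k in atTop, N k x ≤ η / 2 ^ j}
  have hstep : ∀ j (s : St j), ∃ s' : St (j + 1), ‖s.1 - s'.1‖ ≤ C * (η / 2 ^ j) := by
    intro j s
    obtain ⟨x', h1, h2⟩ := h.dist_step s.1 (η / 2 ^ j) (by positivity) s.2
    refine ⟨⟨x', ?_⟩, h1⟩
    have h3 : η / 2 ^ j / 2 = η / 2 ^ (j + 1) := by
      rw [pow_succ, div_div]
    rwa [h3] at h2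
  choose nx hnx using hstep
  let s0 : St 0 := ⟨x, by simpa using hx⟩
  let seq : ∀ j, St j := fun j => Nat.rec s0 (fun j s => nx j s) j
  set X : ℕ → A := fun j => (seq j).1 with hX
  have hX1 : ∀ j, dist (X j) (X (j + 1)) ≤ 2 * C * η / 2 / 2 ^ j := by
    intro j
    rw [dist_eq_norm]
    have h1 := hnx j (seq j)
    calc ‖X j - X (j + 1)‖ ≤ C * (η / 2 ^ j) := h1
      _ = 2 * C * η / 2 / 2 ^ j := by ring
  have hcs : CauchySeq X := cauchySeq_of_le_geometric_two hX1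
  obtain ⟨y, hy⟩ := cauchySeq_tendsto_of_complete hcs
  refine ⟨y, ?_, ?_⟩
  · refine Jsub_of_approx hC h.bdd ?_
    intro ε hε
    have h1 : ∀ᶠ j in atTop, ‖y - X j‖ ≤ ε := by
      have h2 := (hy.const_sub y).norm
      rw [sub_self, norm_zero] at h2
      exact h2.eventually (ge_mem_nhds hε)
    have h3 : ∀ᶠ j : ℕ in atTop, η / 2 ^ j ≤ ε := by
      have h4 : Tendsto (fun j : ℕ => η * (1 / 2 : ℝ) ^ j) atTop (𝓝 (η * 0)) :=
        (tendsto_pow_atTop_nhds_zero_of_lt_one (by norm_num) (by norm_num)).const_mul η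
      rw [mul_zero] at h4
      filter_upwards [h4.eventually (ge_mem_nhds hε)] with j hj
      rw [one_div, inv_pow] at hj
      rw [div_eq_mul_inv]
      exact hj
    obtain ⟨j, hj1, hj2⟩ := (h1.and h3).exists
    refine ⟨X j, hj1, ?_⟩
    filter_upwards [(seq j).2] with k hk
    exact hk.trans hj2
  · have h1 := dist_le_of_le_geometric_two_of_tendsto₀ hX1 hy
    rw [dist_eq_norm] at h1
    exact h1

lemma LSys.approx [CompleteSpace A] (h : LSys u N C) (ε : ℝ) (hε : 0 < ε) :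
    ∀ᶠ n in atTop, ∃ e ∈ Jsub N, ‖(1 - u n) - e‖ ≤ ε := by
  have hC := h.pos
  filter_upwards [h.h3 (ε / (2 * C)) (by positivity)] with n hn
  obtain ⟨y, hy1, hy2⟩ := h.dist_le (1 - u n) (ε / (2 * C)) (by positivity) hn
  refine ⟨y, hy1, hy2.trans (le_of_eq ?_)⟩
  field_simp

lemma LSys.norm_u [NormOneClass A] (h : LSys u N C) (n : ℕ) : ‖u n‖ ≤ C * C := by
  have hC := h.pos
  have h1 := h.h1 n 1
  rw [mul_one] at h1
  have h2 := h.bdd n 1
  rw [norm_one, mul_one] at h2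
  exact h1.trans (by gcongr)

lemma LSys.seq [CompleteSpace A] [NormOneClass A] (h : LSys u N C) :
    ∃ e : ℕ → A, (∀ m, e m ∈ Jsub N) ∧ (∀ m, ‖e m‖ ≤ C * C + 2) ∧
      ∀ a ∈ Jsub N, Tendsto (fun m => e m * a) atTop (𝓝 a) := by
  have hC := h.pos
  have h1 : ∀ m : ℕ, ∃ n, m ≤ n ∧ ∃ e ∈ Jsub N, ‖(1 - u n) - e‖ ≤ 1 / ((m : ℝ) + 1) := by
    intro m
    obtain ⟨n, hn1, hn2⟩ := ((eventually_ge_atTop m).and
      (h.approx (1 / ((m : ℝ) + 1)) (by positivity))).exists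
    exact ⟨n, hn1, hn2⟩
  choose nn hnn e he1 he2 using h1
  refine ⟨e, he1, ?_, ?_⟩
  · intro m
    have h2 : e m = (1 - u (nn m)) - ((1 - u (nn m)) - e m) := by abel
    rw [h2]
    have h3 : (1 : ℝ) / ((m : ℝ) + 1) ≤ 1 := by
      rw [div_le_one (by positivity)]
      have : (0 : ℝ) ≤ m := Nat.cast_nonneg m
      linarith
    calc ‖(1 - u (nn m)) - ((1 - u (nn m)) - e m)‖
        ≤ ‖(1 - u (nn m))‖ + ‖(1 - u (nn m)) - e m‖ := norm_sub_le _ _
      _ ≤ (‖(1 : A)‖ + ‖u (nn m)‖) + 1 := by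
        gcongr
        · exact norm_sub_le _ _
        · exact (he2 m).trans h3
      _ ≤ C * C + 2 := by
        rw [norm_one]
        have := h.norm_u (nn m)
        linarith
  · intro a ha
    have h4 : ∀ m, ‖e m * a - a‖ ≤ C * N (nn m) a + 1 / ((m : ℝ) + 1) * ‖a‖ := by
      intro m
      have h5 : e m * a - a = -(u (nn m) * a) - ((1 - u (nn m)) - e m) * a := by
        rw [sub_mul, sub_mul, one_mul]
        abel
      rw [h5]
      calc ‖-(u (nn m) * a) - ((1 - u (nn m)) - e m) * a‖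
          ≤ ‖-(u (nn m) * a)‖ + ‖((1 - u (nn m)) - e m) * a‖ := norm_sub_le _ _
        _ ≤ C * N (nn m) a + 1 / ((m : ℝ) + 1) * ‖a‖ := by
          rw [norm_neg]
          gcongr
          · exact h.h1 _ _
          · refine (norm_mul_le _ _).trans ?_
            gcongr
            exact he2 m
    have hnt : Tendsto nn atTop atTop := tendsto_atTop_mono hnn tendsto_id
    have h6 : Tendsto (fun m : ℕ => C * N (nn m) a + 1 / ((m : ℝ) + 1) * ‖a‖) atTop (𝓝 0) := by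
      have h7 : Tendsto (fun m : ℕ => C * N (nn m) a) atTop (𝓝 (C * 0)) :=
        ((mem_Jsub.mp ha).comp hnt).const_mul C
      have h8 : Tendsto (fun m : ℕ => 1 / ((m : ℝ) + 1) * ‖a‖) atTop (𝓝 (0 * ‖a‖)) :=
        (tendsto_one_div_add_atTop_nhds_zero_nat).mul_const _
      have h9 := h7.add h8
      simpa using h9
    have h10 := squeeze_zero_norm h4 h6
    have h11 := h10.add_const a
    simpa using h11

/-- Factorisation in the annihilated right ideal. -/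
theorem LSys.factor [CompleteSpace A] [NormOneClass A] (h : LSys u N C) (f : A)
    (hf : f ∈ Jsub N) :
    ∃ x ∈ Jsub N, ∃ y : A, f = x * y ∧ ∃ g : ℕ → A, Tendsto (fun k => g k * f) atTop (𝓝 y) := by
  obtain ⟨e, he1, he2, he3⟩ := h.seq
  exact cohen (Jsub N) (isClosed_Jsub h.pos h.bdd) e he1 (C * C + 2) he2 he3 f hf

lemma LSys.mul_mem (h : LSys u N C) (x y : A) (hx : x ∈ Jsub N) : x * y ∈ Jsub N := by
  rw [mem_Jsub] at *
  have h1 : Tendsto (fun k => C * N k x * ‖y‖) atTop (𝓝 (C * 0 * ‖y‖)) :=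
    (hx.const_mul C).mul_const _
  rw [mul_zero, zero_mul] at h1
  exact squeeze_zero (fun k => apply_nonneg (N k) _) (fun k => h.h2 k x y) h1

/-! ### Right systems -/

/-- The seminorms of a right system, on the opposite algebra. -/
noncomputable def opN (N : ℕ → Seminorm ℂ A) (k : ℕ) : Seminorm ℂ Aᵐᵒᵖ :=
  (N k).comp (MulOpposite.opLinearEquiv ℂ).symm.toLinearMap

lemma opN_apply (N : ℕ → Seminorm ℂ A) (k : ℕ) (x : Aᵐᵒᵖ) : opN N k x = N k x.unop := rfl

lemma RSys.toLSys (h : RSys u N C) : LSys (fun n => MulOpposite.op (u n)) (opN N) C where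
  one_le := h.one_le
  bdd := fun k x => h.bdd k x.unop
  h1 := fun n x => h.h1 n x.unop
  h2 := fun k x y => h.h2 k x.unop y.unop
  h3 := fun ε hε => h.h3 ε hε

lemma mem_Jsub_op (x : Aᵐᵒᵖ) : x ∈ Jsub (opN N) ↔ x.unop ∈ Jsub N := Iff.rfl

lemma RSys.dist_le [CompleteSpace A] (h : RSys u N C) (x : A) (η : ℝ) (hη : 0 < η)
    (hx : ∀ᶠ k in atTop, N k x ≤ η) : ∃ y ∈ Jsub N, ‖x - y‖ ≤ 2 * C * η := by
  obtain ⟨y, hy1, hy2⟩ := h.toLSys.dist_le (MulOpposite.op x) η hη hx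
  exact ⟨y.unop, hy1, hy2⟩

lemma RSys.pos (h : RSys u N C) : 0 < C := lt_of_lt_of_le one_pos h.one_le

instance [NormOneClass A] : NormOneClass Aᵐᵒᵖ := ⟨norm_one (α := A)⟩

theorem RSys.factor [CompleteSpace A] [NormOneClass A] (h : RSys u N C) (f : A)
    (hf : f ∈ Jsub N) :
    ∃ x ∈ Jsub N, ∃ y : A, f = y * x ∧ ∃ g : ℕ → A, Tendsto (fun k => f * g k) atTop (𝓝 y) := by
  obtain ⟨x, hx, y, hxy, g, hg⟩ := h.toLSys.factor (MulOpposite.op f) hf
  refine ⟨x.unop, hx, y.unop, ?_, fun k => (g k).unop, ?_⟩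
  · have := congrArg MulOpposite.unop hxy
    simpa using this
  · have h1 := (MulOpposite.continuous_unop.tendsto y).comp hg
    exact h1

end Sys

end Pool.Agent.J4H52.IQ
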