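import Pool.Agent.J4H52.IQ.Alg
import Pool.Agent.J4H52.IQ.Asm

/-!
# Walks on a group and the group algebra
-/

open Filter Topology

open scoped BoundedContinuousFunction

namespace Pool.Agent.J4H52.IQ

section Basics

open Al

variable {G : Type*} [DecidableEq G] [Group G]

variable [TopologicalSpace G] [DiscreteTopology G]

/-- Multiplication by a bounded function. -/
noncomputable def M (φ : G →ᵇ ℂ) : Al G →L[ℂ] Al G :=
  lift (fun y => φ y • delta y) ‖φ‖ (by
    intro y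
    rw [norm_smul, norm_delta, mul_one]
    exact φ.norm_coe_le_norm y)

omit [DiscreteTopology G] in
@[simp] lemma M_delta (φ : G →ᵇ ℂ) (x : G) :
    M φ (delta x) = φ x • delta x := by
  rw [M, lift_delta]

omit [DiscreteTopology G] in
lemma norm_M_le (φ : G →ᵇ ℂ) (f : Al G) : ‖M φ f‖ ≤ ‖φ‖ * ‖f‖ := by
  exact norm_lift_le _ _ _ f

omit [DiscreteTopology G] in
lemma M_mul (φ ψ : G →ᵇ ℂ) (f : Al G) : M (φ * ψ) f = M φ (M ψ f) := by
  have h : M (φ * ψ) = (M φ).comp (M ψ) := by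
    refine clm_ext fun x => ?_
    simp only [M_delta, ContinuousLinearMap.comp_apply, map_smul, smul_smul,
      BoundedContinuousFunction.mul_apply]
    rw [mul_comm]
  rw [h]
  rfl

omit [DiscreteTopology G] in
lemma M_add (φ ψ : G →ᵇ ℂ) (f : Al G) : M (φ + ψ) f = M φ f + M ψ f := by
  have h : M (φ + ψ) = M φ + M ψ := by
    refine clm_ext fun x => ?_
    simp only [M_delta, _root_.add_apply, BoundedContinuousFunction.add_apply,
      add_smul]
  rw [h]
  rfl

omit [DiscreteTopology G] in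
lemma M_sub (φ ψ : G →ᵇ ℂ) (f : Al G) : M (φ - ψ) f = M φ f - M ψ f := by
  have h : M (φ - ψ) = M φ - M ψ := by
    refine clm_ext fun x => ?_
    simp only [M_delta, _root_.sub_apply, BoundedContinuousFunction.sub_apply,
      sub_smul]
  rw [h]
  rfl

omit [DiscreteTopology G] in
lemma M_const (c : ℂ) (f : Al G) :
    M (BoundedContinuousFunction.const G c) f = c • f := by
  have h : M (BoundedContinuousFunction.const G c) = c • ContinuousLinearMap.id ℂ (Al G) := by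
    refine clm_ext fun x => ?_
    simp only [M_delta, BoundedContinuousFunction.const_apply]
    rfl
  rw [h]
  rfl

end Basics

/-! ### Walks -/

section Walk

open Al

/-- Paths of length `n` with steps in `ι`. -/
def Pth (ι : Type) : ℕ → Type
  | 0 => PUnit
  | n + 1 => Pth ι n × ι

noncomputable instance instPth (ι : Type) [Fintype ι] : ∀ n, Fintype (Pth ι n)
  | 0 => inferInstanceAs (Fintype PUnit)
  | n + 1 => by
    haveI := instPth ι n
    exact inferInstanceAs (Fintype (Pth ι n × ι))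

lemma sum_Pth_succ {ι : Type} [Fintype ι] {M : Type*} [AddCommMonoid M] (n : ℕ)
    (F : Pth ι (n + 1) → M) :
    ∑ ω, F ω = ∑ ω : Pth ι n, ∑ i : ι, F ((ω, i) : Pth ι n × ι) := by
  change ∑ ω : Pth ι n × ι, F ω = _
  rw [Fintype.sum_prod_type]

lemma sum_Pth_zero {ι : Type} [Fintype ι] {M : Type*} [AddCommMonoid M]
    (F : Pth ι 0 → M) : ∑ ω, F ω = F PUnit.unit := by
  change ∑ ω : PUnit, F ω = _
  simp

variable {G : Type*} [DecidableEq G] [Group G] {ι : Type} [Fintype ι] (st : ι → G → G)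

/-- The end point of a path. -/
def pt : ∀ n, Pth ι n → G
  | 0, _ => 1
  | n + 1, ω => st ω.2 (pt n ω.1)

/-- The operator of one step. -/
noncomputable def op (i : ι) : Al G →L[ℂ] Al G :=
  lift (fun y => delta (st i y)) 1 (by simp)

@[simp] lemma op_delta (i : ι) (y : G) :
    op st i (delta y) = delta (st i y) := by
  rw [op, lift_delta]

lemma norm_op_le (i : ι) (f : Al G) : ‖op st i f‖ ≤ ‖f‖ := by
  have h := norm_lift_le (fun y => delta (st i y)) 1 (by simp) f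
  rwa [one_mul] at h

/-- The averaging operator. -/
noncomputable def T : Al G →L[ℂ] Al G :=
  ((Fintype.card ι : ℂ)⁻¹) • ∑ i, op st i

lemma T_apply (f : Al G) : T st f = ((Fintype.card ι : ℂ)⁻¹) • ∑ i, op st i f := by
  rw [T, _root_.smul_apply, _root_.sum_apply]

lemma norm_T_le [Nonempty ι] (f : Al G) : ‖T st f‖ ≤ ‖f‖ := by
  rw [T_apply, norm_smul]
  have hc : (0 : ℝ) < Fintype.card ι := by exact_mod_cast Fintype.card_pos
  have h1 : ‖∑ i, op st i f‖ ≤ Fintype.card ι * ‖f‖ := by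
    refine (norm_sum_le _ _).trans ?_
    refine (Finset.sum_le_sum fun i _ => norm_op_le st i f).trans ?_
    simp
  rw [norm_inv, Complex.norm_natCast]
  calc ((Fintype.card ι : ℝ))⁻¹ * ‖∑ i, op st i f‖
      ≤ ((Fintype.card ι : ℝ))⁻¹ * (Fintype.card ι * ‖f‖) := by gcongr
    _ = ‖f‖ := by field_simp

/-- The push-forward of a density on path space. -/
noncomputable def push (n : ℕ) (Z : Pth ι n → ℂ) : Al G :=
  ((Fintype.card ι : ℂ) ^ n)⁻¹ • ∑ ω, Z ω • delta (pt st n ω)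

lemma push_succ (n : ℕ) (Z : Pth ι (n + 1) → ℂ) :
    push st (n + 1) Z = ((Fintype.card ι : ℂ)⁻¹) •
      ∑ i, op st i (push st n fun ω => Z ((ω, i) : Pth ι n × ι)) := by
  rw [push, sum_Pth_succ]
  simp only [push, map_smul, map_sum, op_delta]
  rw [← Finset.smul_sum, smul_smul, Finset.sum_comm, pow_succ, mul_inv, mul_comm]
  rfl

lemma push_zero (Z : Pth ι 0 → ℂ) : push st 0 Z = Z PUnit.unit • delta 1 := by
  rw [push, sum_Pth_zero]
  simp [pt]

lemma push_add (n : ℕ) (Z W : Pth ι n → ℂ) :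
    push st n (fun ω => Z ω + W ω) = push st n Z + push st n W := by
  simp only [push, add_smul, Finset.sum_add_distrib, smul_add]

lemma push_sub (n : ℕ) (Z W : Pth ι n → ℂ) :
    push st n (fun ω => Z ω - W ω) = push st n Z - push st n W := by
  simp only [push, sub_smul, Finset.sum_sub_distrib, smul_sub]

lemma push_smul (n : ℕ) (c : ℂ) (Z : Pth ι n → ℂ) :
    push st n (fun ω => c * Z ω) = c • push st n Z := by
  simp only [push, mul_smul]
  rw [← Finset.smul_sum, smul_comm]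

/-- Extending a path by an arbitrary step. -/
lemma push_fst (n : ℕ) (Z : Pth ι n → ℂ) :
    push st (n + 1) (fun ω => Z (show Pth ι n × ι from ω).1) = T st (push st n Z) := by
  rw [push_succ, T_apply]

lemma card_Pth (n : ℕ) : ∑ _ω : Pth ι n, (1 : ℝ) = (Fintype.card ι : ℝ) ^ n := by
  induction n with
  | zero => rw [sum_Pth_zero]; simp
  | succ n ih =>
    rw [sum_Pth_succ]
    simp only [Finset.sum_const, Finset.card_univ, nsmul_eq_mul, mul_one]
    rw [pow_succ, ← ih]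
    simp

/-- Mean value on path space. -/
noncomputable def E (n : ℕ) (F : Pth ι n → ℝ) : ℝ := ((Fintype.card ι : ℝ) ^ n)⁻¹ * ∑ ω, F ω

omit [Fintype ι] in
lemma E_mono [Fintype ι] (n : ℕ) {F F' : Pth ι n → ℝ} (h : ∀ ω, F ω ≤ F' ω) : E n F ≤ E n F' := by
  unfold E
  gcongr with ω
  exact h ω

lemma E_const [Nonempty ι] (n : ℕ) (c : ℝ) : E n (fun _ : Pth ι n => c) = c := by
  unfold E
  have h1 : ∑ _ω : Pth ι n, c = (∑ _ω : Pth ι n, (1 : ℝ)) * c := by
    rw [Finset.sum_mul]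
    simp
  have hc : (0 : ℝ) < Fintype.card ι := by exact_mod_cast Fintype.card_pos
  rw [h1, card_Pth]
  field_simp

lemma norm_push_le (n : ℕ) (Z : Pth ι n → ℂ) : ‖push st n Z‖ ≤ E n (fun ω => ‖Z ω‖) := by
  rw [push, norm_smul, norm_inv, norm_pow, Complex.norm_natCast, E]
  gcongr
  refine (norm_sum_le _ _).trans (Finset.sum_le_sum fun ω _ => ?_)
  rw [norm_smul, norm_delta, mul_one]

lemma norm_push_le_sup [Nonempty ι] (n : ℕ) (Z : Pth ι n → ℂ) (K : ℝ) (h : ∀ ω, ‖Z ω‖ ≤ K) :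
    ‖push st n Z‖ ≤ K :=
  (norm_push_le st n Z).trans ((E_mono n h).trans (E_const n K).le)

lemma E_sq [Nonempty ι] (n : ℕ) (F : Pth ι n → ℝ) : (E n F) ^ 2 ≤ E n (fun ω => F ω ^ 2) := by
  have hc : (0 : ℝ) < Fintype.card ι := by exact_mod_cast Fintype.card_pos
  have h1 : (∑ ω, F ω) ^ 2 ≤ (∑ _ω : Pth ι n, (1 : ℝ)) * ∑ ω, F ω ^ 2 := by
    have := Finset.sum_mul_sq_le_sq_mul_sq Finset.univ (fun _ : Pth ι n => (1 : ℝ)) F
    simpa using this
  rw [card_Pth] at h1
  unfold E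
  rw [mul_pow]
  have h2 : (((Fintype.card ι : ℝ) ^ n)⁻¹) ^ 2 * (∑ ω, F ω) ^ 2
      ≤ (((Fintype.card ι : ℝ) ^ n)⁻¹) ^ 2 * ((Fintype.card ι : ℝ) ^ n * ∑ ω, F ω ^ 2) := by
    gcongr
  refine h2.trans (le_of_eq ?_)
  field_simp

/-- The accumulated density. -/
noncomputable def Zs (z : ∀ n, Pth ι (n + 1) → ℂ) : ∀ n, Pth ι n → ℂ
  | 0, _ => 0
  | n + 1, ω => Zs z n (show Pth ι n × ι from ω).1 + z n ω

/-- The accumulated element. -/
noncomputable def accP (z : ∀ n, Pth ι (n + 1) → ℂ) : ℕ → Al G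
  | 0 => 0
  | n + 1 => T st (accP z n) + push st (n + 1) (z n)

lemma push_Zs (z : ∀ n, Pth ι (n + 1) → ℂ) (n : ℕ) : push st n (Zs z n) = accP st z n := by
  induction n with
  | zero => rw [push_zero]; simp [Zs, accP]
  | succ n ih =>
    rw [accP, ← ih, ← push_fst, ← push_add]
    rfl

lemma E_Zs [Nonempty ι] (z : ∀ n, Pth ι (n + 1) → ℂ) (K : ℝ) (hK : ∀ n ω, ‖z n ω‖ ≤ K)
    (hz : ∀ n (ω : Pth ι n), ∑ i : ι, z n ((ω, i) : Pth ι n × ι) = 0) (n : ℕ) :
    E n (fun ω => ‖Zs z n ω‖ ^ 2) ≤ n * K ^ 2 := by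
  have hc : (0 : ℝ) < Fintype.card ι := by exact_mod_cast Fintype.card_pos
  induction n with
  | zero =>
    unfold E
    rw [sum_Pth_zero]
    simp [Zs]
  | succ n ih =>
    have h1 : E (n + 1) (fun ω => ‖Zs z (n + 1) ω‖ ^ 2)
        ≤ E n (fun ω => ‖Zs z n ω‖ ^ 2 + K ^ 2) := by
      unfold E
      rw [sum_Pth_succ, pow_succ, mul_inv, mul_assoc]
      gcongr
      rw [Finset.mul_sum]
      refine Finset.sum_le_sum fun ω _ => ?_
      have h2 : ∀ i : ι, ‖Zs z (n + 1) ((ω, i) : Pth ι n × ι)‖ ^ 2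
          = ‖Zs z n ω‖ ^ 2 + ‖z n ((ω, i) : Pth ι n × ι)‖ ^ 2
            + 2 * (starRingEnd ℂ (Zs z n ω) * z n ((ω, i) : Pth ι n × ι)).re := by
        intro i
        have h3 : Zs z (n + 1) ((ω, i) : Pth ι n × ι)
            = Zs z n ω + z n ((ω, i) : Pth ι n × ι) := rfl
        rw [h3]
        rw [← Complex.normSq_eq_norm_sq, ← Complex.normSq_eq_norm_sq, ← Complex.normSq_eq_norm_sq,
          Complex.normSq_add]
        congr 2
        rw [← Complex.conj_re]
        simp [mul_comm]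
      simp_rw [h2]
      rw [Finset.sum_add_distrib, Finset.sum_add_distrib, ← Finset.mul_sum, ← Complex.re_sum,
        ← Finset.mul_sum, hz n ω]
      simp only [mul_zero, Complex.zero_re, add_zero, Finset.sum_const, Finset.card_univ,
        nsmul_eq_mul]
      have h4 : ∑ i : ι, ‖z n ((ω, i) : Pth ι n × ι)‖ ^ 2 ≤ Fintype.card ι * K ^ 2 := by
        refine (Finset.sum_le_sum (fun i _ => ?_) : _ ≤ ∑ _i : ι, K ^ 2).trans ?_
        · have := hK n ((ω, i) : Pth ι n × ι)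
          gcongr
        · simp
      calc ((Fintype.card ι : ℝ))⁻¹ * (Fintype.card ι * ‖Zs z n ω‖ ^ 2
            + ∑ i : ι, ‖z n ((ω, i) : Pth ι n × ι)‖ ^ 2)
          ≤ ((Fintype.card ι : ℝ))⁻¹ * (Fintype.card ι * ‖Zs z n ω‖ ^ 2
            + Fintype.card ι * K ^ 2) := by gcongr
        _ = ‖Zs z n ω‖ ^ 2 + K ^ 2 := by field_simp
    refine h1.trans ?_
    have h5 : E n (fun ω => ‖Zs z n ω‖ ^ 2 + K ^ 2)
        = E n (fun ω => ‖Zs z n ω‖ ^ 2) + E n (fun _ : Pth ι n => K ^ 2) := by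
      unfold E
      rw [Finset.sum_add_distrib, mul_add]
    rw [h5, E_const]
    push_cast
    linarith

/-- The key estimate: sums of centred increments have norm `O(√n)`. -/
theorem norm_accP_le [Nonempty ι] (z : ∀ n, Pth ι (n + 1) → ℂ) (K : ℝ) (hK0 : 0 ≤ K)
    (hK : ∀ n ω, ‖z n ω‖ ≤ K)
    (hz : ∀ n (ω : Pth ι n), ∑ i : ι, z n ((ω, i) : Pth ι n × ι) = 0) (n : ℕ) :
    ‖accP st z n‖ ≤ K * Real.sqrt n := by
  rw [← push_Zs]
  refine (norm_push_le st n _).trans ?_
  have h1 := E_sq n (fun ω => ‖Zs z n ω‖)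
  have h2 := E_Zs z K hK hz n
  have h3 : (E n fun ω => ‖Zs z n ω‖) ^ 2 ≤ (K * Real.sqrt n) ^ 2 := by
    rw [mul_pow, Real.sq_sqrt (Nat.cast_nonneg n)]
    linarith
  exact abs_le_of_sq_le_sq' h3 (by positivity) |>.2

end Walk

end Pool.Agent.J4H52.IQ
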