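import Pool.Agent.J4H52.IQ.Walk

/-!
# Cesàro averages of walks
-/

open Filter Topology

open scoped BoundedContinuousFunction

namespace Pool.Agent.J4H52.IQ

open Al

section Ces

variable {G : Type*} [DecidableEq G] [Group G] {ι : Type} [Fintype ι] (st : ι → G → G)

lemma norm_T_pow_le [Nonempty ι] (n : ℕ) (f : Al G) : ‖(T st ^ n) f‖ ≤ ‖f‖ := by
  induction n with
  | zero => simp
  | succ n ih =>
    rw [pow_succ']
    exact (norm_T_le st _).trans ih

/-- The Cesàro average of the walk operator. -/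
noncomputable def Tb (k : ℕ) : Al G →L[ℂ] Al G :=
  ((k : ℂ)⁻¹) • ∑ j ∈ Finset.range k, T st ^ j

lemma Tb_apply (k : ℕ) (f : Al G) :
    Tb st k f = ((k : ℂ)⁻¹) • ∑ j ∈ Finset.range k, (T st ^ j) f := by
  rw [Tb, _root_.smul_apply, _root_.sum_apply]

lemma norm_Tb_le [Nonempty ι] (k : ℕ) (f : Al G) : ‖Tb st k f‖ ≤ ‖f‖ := by
  rw [Tb_apply, norm_smul, norm_inv, Complex.norm_natCast]
  have h1 : ‖∑ j ∈ Finset.range k, (T st ^ j) f‖ ≤ k * ‖f‖ := by
    refine (norm_sum_le _ _).trans ?_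
    refine (Finset.sum_le_sum fun j _ => norm_T_pow_le st j f).trans ?_
    simp
  rcases Nat.eq_zero_or_pos k with hk | hk
  · subst hk
    simp
  · have hk' : (0 : ℝ) < k := by exact_mod_cast hk
    calc ((k : ℝ))⁻¹ * ‖∑ j ∈ Finset.range k, (T st ^ j) f‖ ≤ (k : ℝ)⁻¹ * (k * ‖f‖) := by gcongr
      _ = ‖f‖ := by field_simp

lemma norm_Tb_sub_le [Nonempty ι] (k : ℕ) (f : Al G) :
    ‖Tb st k (f - T st f)‖ ≤ 2 * ‖f‖ / k := by
  have h1 : Tb st k (f - T st f) = ((k : ℂ)⁻¹) • (f - (T st ^ k) f) := by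
    rw [Tb_apply]
    congr 1
    have h2 : ∀ n, ∑ j ∈ Finset.range n, (T st ^ j) (f - T st f) = f - (T st ^ n) f := by
      intro n
      induction n with
      | zero => simp
      | succ n ih =>
        rw [Finset.sum_range_succ, ih, map_sub, pow_succ]
        have h3 : (T st ^ n * T st) f = (T st ^ n) (T st f) := rfl
        rw [h3]
        abel
    exact h2 k
  rw [h1, norm_smul, norm_inv, Complex.norm_natCast, div_eq_inv_mul]
  gcongr
  calc ‖f - (T st ^ k) f‖ ≤ ‖f‖ + ‖(T st ^ k) f‖ := norm_sub_le _ _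
    _ ≤ 2 * ‖f‖ := by linarith [norm_T_pow_le st k f]

/-- The accumulated sum of a sequence along the walk. -/
noncomputable def acc (a : ℕ → Al G) : ℕ → Al G
  | 0 => 0
  | n + 1 => T st (acc a n + a n)

lemma norm_acc_le [Nonempty ι] (a : ℕ → Al G) (C : ℝ) (ha : ∀ n, ‖a n‖ ≤ C) (n : ℕ) :
    ‖acc st a n‖ ≤ n * C := by
  induction n with
  | zero => simp [acc]
  | succ n ih =>
    rw [acc]
    refine (norm_T_le st _).trans ((norm_add_le _ _).trans ?_)
    push_cast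
    linarith [ha n]

lemma norm_Tb_sum_sub_acc [Nonempty ι] (a : ℕ → Al G) (C : ℝ) (hC : 0 ≤ C) (ha : ∀ n, ‖a n‖ ≤ C)
    (k n : ℕ) : ‖Tb st k ((∑ j ∈ Finset.range n, a j) - acc st a n)‖ ≤ 2 * n ^ 2 * C / k := by
  induction n with
  | zero => simp [acc]
  | succ n ih =>
    have h1 : (∑ j ∈ Finset.range (n + 1), a j) - acc st a (n + 1)
        = ((∑ j ∈ Finset.range n, a j) - acc st a n)
          + ((acc st a n + a n) - T st (acc st a n + a n)) := by
      rw [Finset.sum_range_succ, acc]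
      abel
    rw [h1, map_add]
    refine (norm_add_le _ _).trans ?_
    have h2 := norm_Tb_sub_le st k (acc st a n + a n)
    have h3 : ‖acc st a n + a n‖ ≤ (n + 1) * C := by
      refine (norm_add_le _ _).trans ?_
      linarith [norm_acc_le st a C ha n, ha n]
    have h4 : 2 * ‖acc st a n + a n‖ / k ≤ 2 * ((n + 1) * C) / k := by gcongr
    have h5 : 2 * (n : ℝ) ^ 2 * C / k + 2 * ((n + 1) * C) / k ≤ 2 * ((n + 1 : ℕ) : ℝ) ^ 2 * C / k := by
      rw [← add_div]
      gcongr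
      push_cast
      have hn : (0 : ℝ) ≤ n := Nat.cast_nonneg n
      nlinarith [mul_nonneg hn hC]
    linarith

lemma norm_Tb_sum_le [Nonempty ι] (a : ℕ → Al G) (C : ℝ) (hC : 0 ≤ C) (ha : ∀ n, ‖a n‖ ≤ C)
    (k n : ℕ) :
    ‖Tb st k (∑ j ∈ Finset.range n, a j)‖ ≤ ‖acc st a n‖ + 2 * n ^ 2 * C / k := by
  have h1 : (∑ j ∈ Finset.range n, a j)
      = acc st a n + ((∑ j ∈ Finset.range n, a j) - acc st a n) := by abel
  rw [h1, map_add]
  refine (norm_add_le _ _).trans ?_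
  exact add_le_add (norm_Tb_le st k _) (norm_Tb_sum_sub_acc st a C hC ha k n)

lemma acc_eq_accP (z : ∀ n, Pth ι (n + 1) → ℂ) (n : ℕ) :
    acc st (fun j => push st (j + 1) (z j)) n = T st (accP st z n) := by
  induction n with
  | zero => simp [acc, accP]
  | succ n ih => rw [acc, ih, accP]

/-- The distribution at time `n`. -/
noncomputable def law (n : ℕ) : Al G := push st n (fun _ => 1)

lemma law_zero : law st 0 = 1 := by
  rw [law, push_zero, one_smul, one_def]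

lemma law_succ (n : ℕ) : law st (n + 1) = T st (law st n) := push_fst st n (fun _ => 1)

lemma law_eq (n : ℕ) : law st n = (T st ^ n) 1 := by
  induction n with
  | zero => rw [law_zero]; simp
  | succ n ih => rw [law_succ, ih, pow_succ']; rfl

/-- The averaged distribution. -/
noncomputable def mu (n : ℕ) : Al G := ((n : ℂ)⁻¹) • ∑ j ∈ Finset.range n, law st j

variable [TopologicalSpace G] [DiscreteTopology G]

/-- Composition of a bounded function with a map. -/
noncomputable def cmp (φ : G →ᵇ ℂ) (s : G → G) : G →ᵇ ℂ :=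
  φ.compContinuous ⟨s, continuous_of_discreteTopology⟩

@[simp] lemma cmp_apply (φ : G →ᵇ ℂ) (s : G → G) (x : G) : cmp φ s x = φ (s x) := rfl

lemma norm_cmp_le (φ : G →ᵇ ℂ) (s : G → G) : ‖cmp φ s‖ ≤ ‖φ‖ := by
  rw [BoundedContinuousFunction.norm_le (norm_nonneg _)]
  intro x
  exact φ.norm_coe_le_norm _

/-- The average of a bounded function over one step. -/
noncomputable def Pv (φ : G →ᵇ ℂ) : G →ᵇ ℂ := ((Fintype.card ι : ℂ)⁻¹) • ∑ i, cmp φ (st i)

lemma Pv_apply (φ : G →ᵇ ℂ) (x : G) :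
    Pv st φ x = ((Fintype.card ι : ℂ)⁻¹) * ∑ i, φ (st i x) := by
  rw [Pv]
  simp only [BoundedContinuousFunction.coe_smul, BoundedContinuousFunction.coe_sum,
    Finset.sum_apply, cmp_apply, smul_eq_mul]

lemma norm_Pv_le [Nonempty ι] (φ : G →ᵇ ℂ) : ‖Pv st φ‖ ≤ ‖φ‖ := by
  have hc : (0 : ℝ) < Fintype.card ι := by exact_mod_cast Fintype.card_pos
  rw [Pv, norm_smul, norm_inv, Complex.norm_natCast]
  have h1 : ‖∑ i, cmp φ (st i)‖ ≤ Fintype.card ι * ‖φ‖ := by
    refine (norm_sum_le _ _).trans ?_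
    refine (Finset.sum_le_sum fun i _ => norm_cmp_le φ (st i)).trans ?_
    simp
  calc ((Fintype.card ι : ℝ))⁻¹ * ‖∑ i, cmp φ (st i)‖
      ≤ ((Fintype.card ι : ℝ))⁻¹ * (Fintype.card ι * ‖φ‖) := by gcongr
    _ = ‖φ‖ := by field_simp

omit [DiscreteTopology G] in
lemma M_push (φ : G →ᵇ ℂ) (n : ℕ) (Z : Pth ι n → ℂ) :
    M φ (push st n Z) = push st n (fun ω => φ (pt st n ω) * Z ω) := by
  simp only [push, map_smul, map_sum, M_delta, smul_smul]
  congr 1
  refine Finset.sum_congr rfl fun ω _ => ?_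
  rw [mul_comm]

omit [DiscreteTopology G] in
lemma M_law (φ : G →ᵇ ℂ) (n : ℕ) : M φ (law st n) = push st n (fun ω => φ (pt st n ω)) := by
  rw [law, M_push]
  simp only [mul_one]

omit [DiscreteTopology G] in
lemma norm_M_law_le [Nonempty ι] (φ : G →ᵇ ℂ) (n : ℕ) : ‖M φ (law st n)‖ ≤ ‖φ‖ := by
  rw [M_law]
  exact norm_push_le_sup st n _ _ fun ω => φ.norm_coe_le_norm _

/-- The centred increments of a bounded function. -/
noncomputable def zinc (η : G →ᵇ ℂ) (n : ℕ) (ω : Pth ι (n + 1)) : ℂ :=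
  η (pt st (n + 1) ω) - Pv st η (pt st n (show Pth ι n × ι from ω).1)

lemma norm_zinc_le [Nonempty ι] (η : G →ᵇ ℂ) (n : ℕ) (ω : Pth ι (n + 1)) :
    ‖zinc st η n ω‖ ≤ 2 * ‖η‖ := by
  refine (norm_sub_le _ _).trans ?_
  have h1 := η.norm_coe_le_norm (pt st (n + 1) ω)
  have h2 := (Pv st η).norm_coe_le_norm (pt st n (show Pth ι n × ι from ω).1)
  have h3 := norm_Pv_le st η
  linarith

lemma sum_zinc [Nonempty ι] (η : G →ᵇ ℂ) (n : ℕ) (ω : Pth ι n) :
    ∑ i : ι, zinc st η n ((ω, i) : Pth ι n × ι) = 0 := by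
  have hc : (Fintype.card ι : ℂ) ≠ 0 := by exact_mod_cast Fintype.card_ne_zero
  have h1 : ∀ i : ι, zinc st η n ((ω, i) : Pth ι n × ι)
      = η (st i (pt st n ω)) - Pv st η (pt st n ω) := fun i => rfl
  simp_rw [h1]
  rw [Finset.sum_sub_distrib, Pv_apply]
  simp only [Finset.sum_const, Finset.card_univ, nsmul_eq_mul]
  rw [← mul_assoc, mul_inv_cancel₀ hc, one_mul, sub_self]

lemma push_zinc (η : G →ᵇ ℂ) (n : ℕ) :
    push st (n + 1) (zinc st η n) = M η (law st (n + 1)) - T st (M (Pv st η) (law st n)) := by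
  rw [M_law, M_law, ← push_fst, ← push_sub]
  rfl

lemma acc_cob (η : G →ᵇ ℂ) (n : ℕ) :
    acc st (fun j => M (η - Pv st η) (law st j)) n
      = (T st ^ n) (M η 1) - M η (law st n) + accP st (zinc st η) n := by
  induction n with
  | zero => simp [acc, accP, law_zero]
  | succ n ih =>
    rw [acc, ih, accP, push_zinc, M_sub, map_add, map_add, map_sub, map_sub, pow_succ']
    have h3 : (T st * T st ^ n) (M η 1) = T st ((T st ^ n) (M η 1)) := rfl
    rw [h3]
    abel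

lemma norm_acc_cob [Nonempty ι] (η : G →ᵇ ℂ) (n : ℕ) :
    ‖acc st (fun j => M (η - Pv st η) (law st j)) n‖ ≤ 2 * ‖η‖ + 2 * ‖η‖ * Real.sqrt n := by
  rw [acc_cob]
  refine (norm_add_le _ _).trans ?_
  have h1 := norm_accP_le st (zinc st η) (2 * ‖η‖) (by positivity) (norm_zinc_le st η)
    (sum_zinc st η) n
  have h2 : ‖(T st ^ n) (M η 1) - M η (law st n)‖ ≤ ‖η‖ + ‖η‖ := by
    refine (norm_sub_le _ _).trans ?_
    refine add_le_add ((norm_T_pow_le st n _).trans ?_) (norm_M_law_le st η n)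
    have := norm_M_le η (1 : Al G)
    rwa [norm_one, mul_one] at this
  linarith

lemma tendsto_sqrt_div : Tendsto (fun n : ℕ => Real.sqrt n / n) atTop (𝓝 0) := by
  have h1 : Tendsto (fun n : ℕ => (Real.sqrt (n : ℝ))⁻¹) atTop (𝓝 0) :=
    (tendsto_inv_atTop_zero.comp Real.tendsto_sqrt_atTop).comp tendsto_natCast_atTop_atTop
  refine h1.congr ?_
  intro n
  rcases Nat.eq_zero_or_pos n with h | h
  · subst h
    simp
  · rw [Real.sqrt_div_self]

/-- The averages of `c • 1 - M φ (mu n)` vanish in the limit if `φ` is `c` plus a coboundary. -/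
theorem W3 [Nonempty ι] (φ η : G →ᵇ ℂ) (c : ℂ) (h : ∀ x, φ x = c + (η x - Pv st η x)) :
    ∀ ε > 0, ∀ᶠ n in atTop, ∀ᶠ k in atTop, ‖Tb st k (c • 1 - M φ (mu st n))‖ ≤ ε := by
  intro ε hε
  have hφ : φ = BoundedContinuousFunction.const G c + (η - Pv st η) := by
    ext x
    simp [h]
  have h1 : Tendsto (fun n : ℕ => 2 * ‖η‖ * (1 / (n : ℝ)) + 2 * ‖η‖ * (Real.sqrt n / n)) atTop
      (𝓝 (2 * ‖η‖ * 0 + 2 * ‖η‖ * 0)) :=
    (tendsto_one_div_atTop_nhds_zero_nat.const_mul _).add (tendsto_sqrt_div.const_mul _)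
  rw [mul_zero, add_zero] at h1
  filter_upwards [h1.eventually (ge_mem_nhds (half_pos hε)), eventually_ge_atTop 1] with n hn hn1
  have hn0 : (0 : ℝ) < n := by exact_mod_cast hn1
  have hnc : (n : ℂ) ≠ 0 := by exact_mod_cast (Nat.one_le_iff_ne_zero.mp hn1)
  set a : ℕ → Al G := fun j => M (η - Pv st η) (law st j) with ha
  set C : ℝ := ‖η - Pv st η‖ with hC
  have haC : ∀ j, ‖a j‖ ≤ C := fun j => norm_M_law_le st _ j
  have h2 : Tendsto (fun k : ℕ => ‖c‖ * (2 * n) * (1 / (k : ℝ)) + 2 * n * C * (1 / (k : ℝ))) atTop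
      (𝓝 (‖c‖ * (2 * n) * 0 + 2 * n * C * 0)) :=
    (tendsto_one_div_atTop_nhds_zero_nat.const_mul _).add
      (tendsto_one_div_atTop_nhds_zero_nat.const_mul _)
  rw [mul_zero, mul_zero, add_zero] at h2
  filter_upwards [h2.eventually (ge_mem_nhds (half_pos hε)), eventually_ge_atTop 1] with k hk hk1
  have hk0 : (0 : ℝ) < k := by exact_mod_cast hk1
  have h3 : c • (1 : Al G) - M φ (mu st n)
      = c • (1 - mu st n) - ((n : ℂ)⁻¹) • ∑ j ∈ Finset.range n, a j := by
    rw [hφ, M_add, M_const, smul_sub]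
    have h4 : M (η - Pv st η) (mu st n) = ((n : ℂ)⁻¹) • ∑ j ∈ Finset.range n, a j := by
      rw [mu, map_smul, map_sum]
    rw [h4]
    abel
  have h5 : ‖Tb st k (1 - mu st n)‖ ≤ 2 * n / k := by
    have h6 : (1 : Al G) - mu st n = ((n : ℂ)⁻¹) • ∑ j ∈ Finset.range n, (1 - law st j) := by
      rw [Finset.sum_sub_distrib, smul_sub, mu]
      simp only [Finset.sum_const, Finset.card_range]
      rw [← Nat.cast_smul_eq_nsmul ℂ, smul_smul, inv_mul_cancel₀ hnc, one_smul]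
    have h7 : ∀ j, ‖Tb st k (1 - law st j)‖ ≤ 2 * j / k := by
      intro j
      induction j with
      | zero => simp [law_zero]
      | succ j ih =>
        have h8 : (1 : Al G) - law st (j + 1) = (1 - law st j) + (law st j - T st (law st j)) := by
          rw [law_succ]
          abel
        rw [h8, map_add]
        refine (norm_add_le _ _).trans ?_
        have h9 := norm_Tb_sub_le st k (law st j)
        have h10 : ‖law st j‖ ≤ 1 := norm_push_le_sup st j _ 1 (by simp)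
        have h11 : 2 * ‖law st j‖ / k ≤ 2 * 1 / k := by gcongr
        have h12 : 2 * ((j + 1 : ℕ) : ℝ) / k = 2 * j / k + 2 * 1 / k := by
          push_cast
          ring
        rw [h12]
        linarith
    rw [h6, map_smul, norm_smul, norm_inv, Complex.norm_natCast, map_sum]
    have h13 : ‖∑ j ∈ Finset.range n, Tb st k (1 - law st j)‖ ≤ n * (2 * n / k) := by
      refine (norm_sum_le _ _).trans ?_
      refine (Finset.sum_le_sum (fun j hj => ?_) :
        _ ≤ ∑ _j ∈ Finset.range n, (2 * (n : ℝ) / k)).trans ?_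
      · refine (h7 j).trans ?_
        have : (j : ℝ) ≤ n := by exact_mod_cast (Finset.mem_range.mp hj).le
        gcongr
      · simp
    calc (n : ℝ)⁻¹ * ‖∑ j ∈ Finset.range n, Tb st k (1 - law st j)‖
        ≤ (n : ℝ)⁻¹ * (n * (2 * n / k)) := by gcongr
      _ = 2 * n / k := by field_simp
  have h14 : ‖Tb st k (((n : ℂ)⁻¹) • ∑ j ∈ Finset.range n, a j)‖
      ≤ (n : ℝ)⁻¹ * (2 * ‖η‖ + 2 * ‖η‖ * Real.sqrt n + 2 * n ^ 2 * C / k) := by
    rw [map_smul, norm_smul, norm_inv, Complex.norm_natCast]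
    gcongr
    refine (norm_Tb_sum_le st a C (norm_nonneg _) haC k n).trans ?_
    gcongr
    exact norm_acc_cob st η n
  rw [h3, map_sub, map_smul]
  calc ‖c • Tb st k (1 - mu st n) - Tb st k (((n : ℂ)⁻¹) • ∑ j ∈ Finset.range n, a j)‖
      ≤ ‖c • Tb st k (1 - mu st n)‖ + ‖Tb st k (((n : ℂ)⁻¹) • ∑ j ∈ Finset.range n, a j)‖ :=
        norm_sub_le _ _
    _ ≤ ‖c‖ * (2 * n / k)
        + (n : ℝ)⁻¹ * (2 * ‖η‖ + 2 * ‖η‖ * Real.sqrt n + 2 * n ^ 2 * C / k) := by
        rw [norm_smul]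
        gcongr
    _ = (2 * ‖η‖ * (1 / (n : ℝ)) + 2 * ‖η‖ * (Real.sqrt n / n))
        + (‖c‖ * (2 * n) * (1 / (k : ℝ)) + 2 * n * C * (1 / (k : ℝ))) := by
        field_simp
        ring
    _ ≤ ε / 2 + ε / 2 := by
        exact add_le_add hn hk
    _ = ε := by ring

end Ces

end Pool.Agent.J4H52.IQ
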