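import Pool.Agent.J4H52.IQ.Walk2

/-!
# Left and right walks
-/

open Filter Topology

open scoped BoundedContinuousFunction

namespace Pool.Agent.J4H52.IQ

open Al

section LR

variable {G : Type*} [DecidableEq G] [Group G] {ι : Type} [Fintype ι] (g : ι → G)

/-- Right steps. -/
def stR (i : ι) (y : G) : G := y * g i

/-- Left steps. -/
def stL (i : ι) (y : G) : G := g i * y

/-- The step distribution. -/
noncomputable def mm : Al G := ((Fintype.card ι : ℂ)⁻¹) • ∑ i, delta (g i)

lemma op_stR (i : ι) (f : Al G) : op (stR g) i f = f * delta (g i) := by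
  have h : op (stR g) i = (ContinuousLinearMap.mul ℂ (Al G)).flip (delta (g i)) := by
    refine clm_ext fun x => ?_
    rw [op_delta, ContinuousLinearMap.flip_apply, ContinuousLinearMap.mul_apply', delta_mul_delta]
    rfl
  rw [h]
  rfl

lemma op_stL (i : ι) (f : Al G) : op (stL g) i f = delta (g i) * f := by
  have h : op (stL g) i = (ContinuousLinearMap.mul ℂ (Al G)) (delta (g i)) := by
    refine clm_ext fun x => ?_
    rw [op_delta, ContinuousLinearMap.mul_apply', delta_mul_delta]
    rfl
  rw [h]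
  rfl

lemma T_stR (f : Al G) : T (stR g) f = f * mm g := by
  rw [T_apply, mm, mul_smul_comm, Finset.mul_sum]
  simp only [op_stR]

lemma T_stL (f : Al G) : T (stL g) f = mm g * f := by
  rw [T_apply, mm, smul_mul_assoc, Finset.sum_mul]
  simp only [op_stL]

lemma T_pow_stR (n : ℕ) (f : Al G) : (T (stR g) ^ n) f = f * mm g ^ n := by
  induction n with
  | zero => simp
  | succ n ih =>
    rw [pow_succ', pow_succ]
    change T (stR g) ((T (stR g) ^ n) f) = _
    rw [ih, T_stR, mul_assoc]

lemma T_pow_stL (n : ℕ) (f : Al G) : (T (stL g) ^ n) f = mm g ^ n * f := by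
  induction n with
  | zero => simp
  | succ n ih =>
    rw [pow_succ', pow_succ']
    change T (stL g) ((T (stL g) ^ n) f) = _
    rw [ih, T_stL, mul_assoc]

/-- The averaged powers of the step distribution. -/
noncomputable def mb (n : ℕ) : Al G := ((n : ℂ)⁻¹) • ∑ j ∈ Finset.range n, mm g ^ j

lemma law_stR (n : ℕ) : law (stR g) n = mm g ^ n := by rw [law_eq, T_pow_stR, one_mul]

lemma law_stL (n : ℕ) : law (stL g) n = mm g ^ n := by rw [law_eq, T_pow_stL, mul_one]

lemma mu_stR (n : ℕ) : mu (stR g) n = mb g n := by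
  rw [mu, mb]
  simp only [law_stR]

lemma mu_stL (n : ℕ) : mu (stL g) n = mb g n := by
  rw [mu, mb]
  simp only [law_stL]

lemma Tb_stR (k : ℕ) (f : Al G) : Tb (stR g) k f = f * mb g k := by
  rw [Tb_apply, mb, mul_smul_comm, Finset.mul_sum]
  simp only [T_pow_stR]

lemma Tb_stL (k : ℕ) (f : Al G) : Tb (stL g) k f = mb g k * f := by
  rw [Tb_apply, mb, smul_mul_assoc, Finset.sum_mul]
  simp only [T_pow_stL]

lemma norm_mb_le [Nonempty ι] (k : ℕ) : ‖mb g k‖ ≤ 1 := by
  have h := norm_Tb_le (stR g) k (1 : Al G)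
  rwa [Tb_stR, one_mul, norm_one] at h

/-- The average of a sequence of push-forwards. -/
noncomputable def av (Z : ∀ n, Pth ι n → ℂ) (n : ℕ) : Al G :=
  ((n : ℂ)⁻¹) • ∑ j ∈ Finset.range n, push (stR g) j (Z j)

lemma norm_av_le [Nonempty ι] (Z : ∀ n, Pth ι n → ℂ) (K : ℝ) (hK : ∀ n ω, ‖Z n ω‖ ≤ K)
    (hK0 : 0 ≤ K) (n : ℕ) : ‖av g Z n‖ ≤ K := by
  rw [av, norm_smul, norm_inv, Complex.norm_natCast]
  have h1 : ‖∑ j ∈ Finset.range n, push (stR g) j (Z j)‖ ≤ n * K := by
    refine (norm_sum_le _ _).trans ?_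
    refine (Finset.sum_le_sum fun j _ => norm_push_le_sup (stR g) j (Z j) K (hK j)).trans ?_
    simp
  rcases Nat.eq_zero_or_pos n with hk | hk
  · subst hk
    simpa using hK0
  · have hk' : (0 : ℝ) < n := by exact_mod_cast hk
    calc ((n : ℝ))⁻¹ * ‖∑ j ∈ Finset.range n, push (stR g) j (Z j)‖ ≤ (n : ℝ)⁻¹ * (n * K) := by
          gcongr
      _ = K := by field_simp

/-- The elements `f` whose two-sided averages vanish. -/
def SS (f : Al G) : Prop :=
  ∀ (K : ℝ) (_ : 0 ≤ K) (Z : ∀ n, Pth ι n → ℂ) (_ : ∀ n ω, ‖Z n ω‖ ≤ K),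
    ∀ ε > 0, ∀ᶠ n in atTop, ∀ᶠ k in atTop, ‖av g Z n * f * mb g k‖ ≤ ε

/-- `SS` as a submodule. -/
def SSsub : Submodule ℂ (Al G) where
  carrier := {f | SS g f}
  add_mem' := by
    intro f f' hf hf' K hK0 Z hK ε hε
    filter_upwards [hf K hK0 Z hK (ε / 2) (half_pos hε), hf' K hK0 Z hK (ε / 2) (half_pos hε)]
      with n hn hn'
    filter_upwards [hn, hn'] with k hk hk'
    rw [mul_add, add_mul]
    refine (norm_add_le _ _).trans ?_
    linarith
  zero_mem' := by
    intro K hK0 Z hK ε hε
    refine Eventually.of_forall fun n => Eventually.of_forall fun k => ?_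
    rw [mul_zero, zero_mul, norm_zero]
    exact hε.le
  smul_mem' := by
    intro c f hf K hK0 Z hK ε hε
    filter_upwards [hf K hK0 Z hK (ε / (‖c‖ + 1)) (by positivity)] with n hn
    filter_upwards [hn] with k hk
    rw [mul_smul_comm, smul_mul_assoc, norm_smul]
    calc ‖c‖ * ‖av g Z n * f * mb g k‖ ≤ (‖c‖ + 1) * (ε / (‖c‖ + 1)) := by
          gcongr
          linarith
      _ = ε := by field_simp

lemma isClosed_SSsub [Nonempty ι] : IsClosed (SSsub g : Set (Al G)) := by
  rw [← isSeqClosed_iff_isClosed]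
  intro s x hs hx K hK0 Z hK ε hε
  have h1 : ∀ᶠ m in atTop, ‖x - s m‖ ≤ ε / (2 * (K + 1)) := by
    have h2 := (hx.const_sub x).norm
    rw [sub_self, norm_zero] at h2
    exact h2.eventually (ge_mem_nhds (by positivity))
  obtain ⟨m, hm⟩ := h1.exists
  filter_upwards [hs m K hK0 Z hK (ε / 2) (half_pos hε)] with n hn
  filter_upwards [hn] with k hk
  have h3 : av g Z n * x * mb g k = av g Z n * (x - s m) * mb g k + av g Z n * s m * mb g k := by
    rw [mul_sub, sub_mul]
    abel
  rw [h3]
  refine (norm_add_le _ _).trans ?_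
  have h4 : ‖av g Z n * (x - s m) * mb g k‖ ≤ K * (ε / (2 * (K + 1))) * 1 := by
    refine (norm_mul_le _ _).trans ?_
    gcongr
    · refine (norm_mul_le _ _).trans ?_
      gcongr
      exact norm_av_le g Z K hK hK0 n
    · exact norm_mb_le g k
  have h5 : K * (ε / (2 * (K + 1))) * 1 ≤ ε / 2 := by
    rw [mul_one]
    have : K * (ε / (2 * (K + 1))) ≤ (K + 1) * (ε / (2 * (K + 1))) := by
      gcongr
      linarith
    refine this.trans (le_of_eq ?_)
    field_simp
  linarith

open Classical in
lemma SS_gen [Nonempty ι] (i : ι) : SS g (delta (g i) - 1) := by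
  intro K hK0 Z hK ε hε
  have hc : (0 : ℝ) < Fintype.card ι := by exact_mod_cast Fintype.card_pos
  have hcc : (Fintype.card ι : ℂ) ≠ 0 := by exact_mod_cast Fintype.card_ne_zero
  -- centred increments
  set z : ∀ n, Pth ι (n + 1) → ℂ := fun n ω =>
    ((if (show Pth ι n × ι from ω).2 = i then (Fintype.card ι : ℂ) else 0) - 1)
      * Z n (show Pth ι n × ι from ω).1 with hz
  set K' : ℝ := (Fintype.card ι + 1) * K with hK'
  have hK'0 : 0 ≤ K' := by positivity
  have hzK : ∀ n ω, ‖z n ω‖ ≤ K' := by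
    intro n ω
    rw [hz]
    simp only
    rw [norm_mul, hK']
    refine mul_le_mul ?_ (hK _ _) (norm_nonneg _) (by positivity)
    refine (norm_sub_le _ _).trans ?_
    rw [norm_one]
    gcongr
    split_ifs
    · rw [Complex.norm_natCast]
    · rw [norm_zero]; positivity
  have hz0 : ∀ n (ω : Pth ι n), ∑ i' : ι, z n ((ω, i') : Pth ι n × ι) = 0 := by
    intro n ω
    have h1 : ∀ i' : ι, z n ((ω, i') : Pth ι n × ι)
        = ((if i' = i then (Fintype.card ι : ℂ) else 0) - 1) * Z n ω := fun _ => rfl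
    simp_rw [h1]
    rw [← Finset.sum_mul, Finset.sum_sub_distrib]
    simp
  have hop : ∀ j, push (stR g) (j + 1) (z j)
      = op (stR g) i (push (stR g) j (Z j)) - T (stR g) (push (stR g) j (Z j)) := by
    intro j
    have h1 : push (stR g) (j + 1) (fun ω =>
        (if (show Pth ι j × ι from ω).2 = i then (Fintype.card ι : ℂ) else 0)
          * Z j (show Pth ι j × ι from ω).1) = op (stR g) i (push (stR g) j (Z j)) := by
      rw [push_succ]
      have h2 : ∀ i' : ι, op (stR g) i' (push (stR g) j fun ω =>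
          (if i' = i then (Fintype.card ι : ℂ) else 0) * Z j ω)
          = if i' = i then (Fintype.card ι : ℂ) • op (stR g) i (push (stR g) j (Z j)) else 0 := by
        intro i'
        rw [push_smul, map_smul]
        split_ifs with h
        · rw [h]
        · rw [zero_smul]
      calc ((Fintype.card ι : ℂ)⁻¹) • ∑ i' : ι, op (stR g) i' (push (stR g) j fun ω =>
          (if i' = i then (Fintype.card ι : ℂ) else 0) * Z j ω)
          = ((Fintype.card ι : ℂ)⁻¹) • ∑ i' : ι,
            (if i' = i then (Fintype.card ι : ℂ) • op (stR g) i (push (stR g) j (Z j)) else 0) := by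
            congr 1
            exact Finset.sum_congr rfl fun i' _ => h2 i'
        _ = op (stR g) i (push (stR g) j (Z j)) := by
          rw [Finset.sum_ite_eq' Finset.univ i, if_pos (Finset.mem_univ i), smul_smul,
            inv_mul_cancel₀ hcc, one_smul]
    rw [← h1, ← push_fst, ← push_sub]
    congr 1
    funext ω
    rw [hz]
    simp only
    rw [sub_mul, one_mul]
  have key : ∀ n k : ℕ, 0 < n → 0 < k → ‖av g Z n * (delta (g i) - 1) * mb g k‖
      ≤ K' * (Real.sqrt n / n) + (2 * n * K' * (1 / (k : ℝ)) + 2 * K * (1 / (k : ℝ))) := by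
    intro n k hn hk
    have hn0 : (0 : ℝ) < n := by exact_mod_cast hn
    have hk0 : (0 : ℝ) < k := by exact_mod_cast hk
    have h1 : av g Z n * (delta (g i) - 1) * mb g k
        = ((n : ℂ)⁻¹) • (Tb (stR g) k (∑ j ∈ Finset.range n, push (stR g) (j + 1) (z j))
          - ∑ j ∈ Finset.range n,
            Tb (stR g) k (push (stR g) j (Z j) - T (stR g) (push (stR g) j (Z j)))) := by
      rw [← Tb_stR, ← map_sum, ← map_sub, ← map_smul]
      congr 1
      rw [← Finset.sum_sub_distrib, av, smul_mul_assoc, Finset.sum_mul]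
      congr 1
      refine Finset.sum_congr rfl fun j _ => ?_
      rw [hop, op_stR, mul_sub, mul_one]
      abel
    have h2 : ‖Tb (stR g) k (∑ j ∈ Finset.range n, push (stR g) (j + 1) (z j))‖
        ≤ K' * Real.sqrt n + 2 * n ^ 2 * K' / k := by
      refine (norm_Tb_sum_le (stR g) _ K' hK'0 (fun j => norm_push_le_sup (stR g) (j + 1) (z j)
        K' (hzK j)) k n).trans ?_
      gcongr
      rw [acc_eq_accP]
      exact (norm_T_le (stR g) _).trans (norm_accP_le (stR g) z K' hK'0 hzK hz0 n)
    have h3 : ‖∑ j ∈ Finset.range n,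
        Tb (stR g) k (push (stR g) j (Z j) - T (stR g) (push (stR g) j (Z j)))‖
        ≤ n * (2 * K / k) := by
      refine (norm_sum_le _ _).trans ?_
      refine (Finset.sum_le_sum (fun j _ => ?_) :
        _ ≤ ∑ _j ∈ Finset.range n, (2 * K / (k : ℝ))).trans ?_
      · refine (norm_Tb_sub_le (stR g) k _).trans ?_
        gcongr
        exact norm_push_le_sup (stR g) j (Z j) K (hK j)
      · simp
    rw [h1, norm_smul, norm_inv, Complex.norm_natCast]
    calc (n : ℝ)⁻¹ * ‖Tb (stR g) k (∑ j ∈ Finset.range n, push (stR g) (j + 1) (z j))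
          - ∑ j ∈ Finset.range n,
            Tb (stR g) k (push (stR g) j (Z j) - T (stR g) (push (stR g) j (Z j)))‖
        ≤ (n : ℝ)⁻¹ * ((K' * Real.sqrt n + 2 * n ^ 2 * K' / k) + n * (2 * K / k)) := by
          gcongr
          exact (norm_sub_le _ _).trans (add_le_add h2 h3)
      _ = K' * (Real.sqrt n / n) + (2 * n * K' * (1 / (k : ℝ)) + 2 * K * (1 / (k : ℝ))) := by
          field_simp
          ring
  have h4 : Tendsto (fun n : ℕ => K' * (Real.sqrt n / n)) atTop (𝓝 (K' * 0)) :=
    tendsto_sqrt_div.const_mul _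
  rw [mul_zero] at h4
  filter_upwards [h4.eventually (ge_mem_nhds (half_pos hε)), eventually_gt_atTop 0] with n hn hn0
  have h5 : Tendsto (fun k : ℕ => 2 * n * K' * (1 / (k : ℝ)) + 2 * K * (1 / (k : ℝ))) atTop
      (𝓝 (2 * n * K' * 0 + 2 * K * 0)) :=
    (tendsto_one_div_atTop_nhds_zero_nat.const_mul _).add
      (tendsto_one_div_atTop_nhds_zero_nat.const_mul _)
  rw [mul_zero, mul_zero, add_zero] at h5
  filter_upwards [h5.eventually (ge_mem_nhds (half_pos hε)), eventually_gt_atTop 0] with k hk hk0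
  refine (key n k hn0 hk0).trans ?_
  linarith

open Classical in
lemma SS_mul [Nonempty ι] (i : ι) (f : Al G) (hf : SS g f) : SS g (delta (g i) * f) := by
  intro K hK0 Z hK ε hε
  have hcc : (Fintype.card ι : ℂ) ≠ 0 := by exact_mod_cast Fintype.card_ne_zero
  set Z' : ∀ n, Pth ι n → ℂ := fun n => match n with
    | 0 => fun _ => 0
    | n + 1 => fun ω => (if (show Pth ι n × ι from ω).2 = i then (Fintype.card ι : ℂ) else 0)
      * Z n (show Pth ι n × ι from ω).1 with hZ'
  set K' : ℝ := Fintype.card ι * K with hK'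
  have hK'0 : 0 ≤ K' := by positivity
  have hZK : ∀ n ω, ‖Z' n ω‖ ≤ K' := by
    intro n ω
    cases n with
    | zero => simpa [hZ'] using hK'0
    | succ n =>
      rw [hZ']
      simp only
      rw [norm_mul, hK']
      refine mul_le_mul ?_ (hK _ _) (norm_nonneg _) (by positivity)
      split_ifs
      · rw [Complex.norm_natCast]
      · rw [norm_zero]; positivity
  have hpush : ∀ j, push (stR g) (j + 1) (Z' (j + 1)) = push (stR g) j (Z j) * delta (g i) := by
    intro j
    rw [← op_stR, push_succ]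
    have h2 : ∀ i' : ι, op (stR g) i' (push (stR g) j fun ω =>
        (if i' = i then (Fintype.card ι : ℂ) else 0) * Z j ω)
        = if i' = i then (Fintype.card ι : ℂ) • op (stR g) i (push (stR g) j (Z j)) else 0 := by
      intro i'
      rw [push_smul, map_smul]
      split_ifs with h
      · rw [h]
      · rw [zero_smul]
    calc ((Fintype.card ι : ℂ)⁻¹) • ∑ i' : ι, op (stR g) i' (push (stR g) j fun ω =>
        (if i' = i then (Fintype.card ι : ℂ) else 0) * Z j ω)
        = ((Fintype.card ι : ℂ)⁻¹) • ∑ i' : ι,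
          (if i' = i then (Fintype.card ι : ℂ) • op (stR g) i (push (stR g) j (Z j)) else 0) := by
          congr 1
          exact Finset.sum_congr rfl fun i' _ => h2 i'
      _ = op (stR g) i (push (stR g) j (Z j)) := by
        rw [Finset.sum_ite_eq' Finset.univ i, if_pos (Finset.mem_univ i), smul_smul,
          inv_mul_cancel₀ hcc, one_smul]
  have hzero : push (stR g) 0 (Z' 0) = 0 := by
    rw [push_zero]
    simp [hZ']
  have hav : ∀ n : ℕ, 0 < n → av g Z n * delta (g i)
      = (((n + 1 : ℕ) : ℂ) / (n : ℂ)) • av g Z' (n + 1) := by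
    intro n hn
    have hn0 : (n : ℂ) ≠ 0 := by exact_mod_cast hn.ne'
    have hn1 : ((n + 1 : ℕ) : ℂ) ≠ 0 := by exact_mod_cast (Nat.succ_ne_zero n)
    rw [av, av, smul_mul_assoc, Finset.sum_mul, smul_smul, Finset.sum_range_succ', hzero, add_zero]
    congr 1
    · field_simp
    · exact Finset.sum_congr rfl fun j _ => (hpush j).symm
  have h1 := hf K' hK'0 Z' hZK (ε / 2) (half_pos hε)
  have h2 : ∀ᶠ n : ℕ in atTop, ∀ᶠ k in atTop, ‖av g Z' (n + 1) * f * mb g k‖ ≤ ε / 2 :=
    (tendsto_add_atTop_nat 1).eventually h1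
  filter_upwards [h2, eventually_gt_atTop 0] with n hn hn0
  filter_upwards [hn] with k hk
  rw [← mul_assoc, hav n hn0, smul_mul_assoc, smul_mul_assoc, norm_smul, norm_div,
    Complex.norm_natCast, Complex.norm_natCast]
  have hn0' : (0 : ℝ) < n := by exact_mod_cast hn0
  have h3 : ((n + 1 : ℕ) : ℝ) / n ≤ 2 := by
    rw [div_le_iff₀ hn0']
    push_cast
    have : (1 : ℝ) ≤ n := by exact_mod_cast hn0
    linarith
  calc ((n + 1 : ℕ) : ℝ) / n * ‖av g Z' (n + 1) * f * mb g k‖ ≤ 2 * (ε / 2) := by gcongr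
    _ = ε := by ring

lemma SS_delta [Nonempty ι] (hg : Submonoid.closure (Set.range g) = ⊤) (x : G) :
    SS g (delta x - 1) := by
  have hx : x ∈ Submonoid.closure (Set.range g) := by rw [hg]; trivial
  induction hx using Submonoid.closure_induction_left with
  | one =>
    rw [one_def, sub_self]
    exact (SSsub g).zero_mem
  | mul_left a ha y hy ih =>
    obtain ⟨i, rfl⟩ := ha
    have h1 : delta (g i * y) - (1 : Al G) = delta (g i) * (delta y - 1) + (delta (g i) - 1) := by
      rw [mul_sub, delta_mul_delta, mul_one]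
      abel
    rw [h1]
    exact (SSsub g).add_mem (SS_mul g i _ ih) (SS_gen g i)

/-- The augmentation. -/
noncomputable def aug : Al G →L[ℂ] ℂ := lift (fun _ => 1) 1 (by simp)

lemma aug_delta (x : G) : aug (delta x : Al G) = 1 := by rw [aug, lift_delta]

/-- Two-sided averages of elements of augmentation zero vanish. -/
theorem SS_of_aug [Nonempty ι] (hg : Submonoid.closure (Set.range g) = ⊤) (f : Al G)
    (hf : aug f = 0) : SS g f := by
  set D : Al G →L[ℂ] Al G :=
    ContinuousLinearMap.id ℂ (Al G) - (aug (G := G)).smulRight (1 : Al G) with hD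
  have hDa : ∀ f, D f = f - aug f • (1 : Al G) := fun f => rfl
  have h1 : ∀ f, D f ∈ SSsub g := by
    intro f
    have h2 : f ∈ (SSsub g).comap D.toLinearMap := by
      refine mem_of_delta _ ?_ ?_ f
      · exact (isClosed_SSsub g).preimage D.continuous
      · intro x
        change D (delta x) ∈ SSsub g
        rw [hDa, aug_delta, one_smul]
        exact SS_delta g hg x
    exact h2
  have h3 := h1 f
  rw [hDa, hf, zero_smul, sub_zero] at h3
  exact h3

variable [TopologicalSpace G] [DiscreteTopology G]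

theorem LR1 [Nonempty ι] (hg : Submonoid.closure (Set.range g) = ⊤) (θ : G →ᵇ ℂ) (f : Al G)
    (hf : aug f = 0) :
    ∀ ε > 0, ∀ᶠ n in atTop, ∀ᶠ k in atTop, ‖M θ (mb g n) * f * mb g k‖ ≤ ε := by
  intro ε hε
  have h1 := SS_of_aug g hg f hf ‖θ‖ (norm_nonneg _) (fun n ω => θ (pt (stR g) n ω))
    (fun n ω => θ.norm_coe_le_norm _) ε hε
  have h2 : ∀ n, av g (fun n ω => θ (pt (stR g) n ω)) n = M θ (mb g n) := by
    intro n
    rw [av, mb, map_smul, map_sum]
    congr 1
    refine Finset.sum_congr rfl fun j _ => ?_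
    rw [← M_law, law_stR]
  simpa only [h2] using h1

end LR

end Pool.Agent.J4H52.IQ
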